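import Pool.Agent.helper12.BM.Main

/-!
# The Banach-Mazur game: the property of the problem
-/

set_option autoImplicit false

open Set Cardinal

namespace Pool.Agent.helper12.BM

theorem plus_mono_left {κ μ : Cardinal.{0}} (h : κ ≤ μ) (n : ℕ) : plus κ n ≤ plus μ n := by
  induction n with
  | zero => exact h
  | succ n ih => exact Order.succ_le_succ ih

theorem plus_mono_right (κ : Cardinal.{0}) {a b : ℕ} (hab : a ≤ b) : plus κ a ≤ plus κ b := by
  induction hab with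
  | refl => exact le_rfl
  | step _ ih => exact ih.trans (Order.le_succ _)

theorem le_plus (κ : Cardinal.{0}) (n : ℕ) : κ ≤ plus κ n := plus_mono_right κ (Nat.zero_le n)

theorem plus_plus (κ : Cardinal.{0}) (a b : ℕ) : plus (plus κ a) b = plus κ (a + b) := by
  induction b with
  | zero => rfl
  | succ b ih => exact congrArg Order.succ ih

theorem plus_fin {κ : Cardinal.{0}} (h : κ < ℵ₀) (n : ℕ) : plus κ n < ℵ₀ := by
  induction n with
  | zero => exact h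
  | succ n ih =>
    exact Cardinal.isSuccLimit_aleph0.succ_lt ih

variable {X : Type} [TopologicalSpace X]

theorem hyp_of_bowtie {n : ℕ} {B : Set (Set X)} (hB : PiBase B) {r : Set X → Ordinal.{0}}
    (hb : ∀ U ∈ pg B, ∃ A, Cellular U A ∧ #{V | V ∈ B ∧ U ⊆ V ∧ r V ≤ r U} ≤ plus #A n)
    (hl : ∀ U ∈ pg B, ∀ κ : Cardinal.{0}, ℵ₀ ≤ κ →
      Order.succ κ ≤ #{V | V ∈ B ∧ U ⊆ V ∧ r V ≤ r U} →
      #{V | V ∈ B ∧ U ⊆ V ∧ r V ≤ r U} ≤ plus κ n →
      Ladder U (Order.succ κ) ∨ ∀ U' ∈ pg B, U' ⊆ U → r U ≤ r U' →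
        ∃ A, Cellular U' A ∧ Order.succ κ ≤ #A) : Hyp n B r := by
  classical
  intro U hU
  set s := #{V | V ∈ B ∧ U ⊆ V ∧ r V ≤ r U} with hs
  let K : Set Cardinal.{0} := {κ | ℵ₀ ≤ κ ∧ s ≤ plus κ n}
  have hK : K.Nonempty := ⟨max ℵ₀ s, le_max_left _ _, (le_max_right _ _).trans (le_plus _ _)⟩
  have hmem : sInf K ∈ K := csInf_mem hK
  set κ := sInf K with hκ
  obtain ⟨h1, h2⟩ := hmem
  have hex : ∃ j, s ≤ plus κ j := ⟨n, h2⟩
  set j := Nat.find hex with hj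
  have hj1 : s ≤ plus κ j := Nat.find_spec hex
  have hj2 : j ≤ n := Nat.find_min' hex h2
  -- the sizes of the cellular families below `U`
  let Q : ℕ → Prop := fun i => ∀ U' ∈ pg B, U' ⊆ U → r U ≤ r U' →
    ∃ A, Cellular U' A ∧ plus κ i ≤ #A
  have hQ0 : Q 0 := by
    intro U' hU' hsub hr
    obtain ⟨A, hA, hc⟩ := hb U' hU'
    have h4 : s ≤ plus #A n := by
      refine le_trans ?_ hc
      exact Cardinal.mk_le_mk_of_subset fun V hV => ⟨hV.1, hsub.trans hV.2.1, hV.2.2.trans hr⟩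
    by_cases hinf : ℵ₀ ≤ #A
    · exact ⟨A, hA, csInf_le' ⟨hinf, h4⟩⟩
    · have h5 : s < ℵ₀ := h4.trans_lt (plus_fin (not_le.1 hinf) n)
      have h6 : κ ≤ ℵ₀ := csInf_le' ⟨le_rfl, h5.le.trans (le_plus _ _)⟩
      obtain ⟨A', hA', hc'⟩ := hU'.2.2 U' (hB.1 U' hU'.1) subset_rfl
      exact ⟨A', hA', h6.trans hc'.ge⟩
  set i0 := Nat.findGreatest Q j with hi0
  have hQi : Q i0 := Nat.findGreatest_spec (P := Q) (Nat.zero_le j) hQ0
  have hi0j : i0 ≤ j := Nat.findGreatest_le j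
  refine ⟨plus κ i0, j - i0, plus_inf h1 _, by omega, ?_, hQi, ?_⟩
  · rw [plus_plus, show i0 + (j - i0) = j by omega]
    exact hj1
  · intro i hi hij
    obtain ⟨i, rfl⟩ : ∃ i', i = i' + 1 := ⟨i - 1, by omega⟩
    rw [plus_plus]
    have h3 : plus κ (i0 + i) < s := not_le.1 (Nat.find_min hex (show i0 + i < j by omega))
    rcases hl U hU (plus κ (i0 + i)) (plus_inf h1 _) (Order.succ_le_of_lt h3)
      (h2.trans (plus_mono_left (le_plus κ _) n)) with h | h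
    · exact h
    · exfalso
      have h6 : Q (i0 + i + 1) := h
      have h7 : i0 + i + 1 ≤ i0 := Nat.le_findGreatest (P := Q) (by omega) h6
      omega

/-- the positive answer in the presence of ladders -/
theorem hasTactic_of_bowtie {n : ℕ} {B : Set (Set X)} (hB : PiBase B) {r : Set X → Ordinal.{0}}
    (hb : ∀ U ∈ pg B, ∃ A, Cellular U A ∧ #{V | V ∈ B ∧ U ⊆ V ∧ r V ≤ r U} ≤ plus #A n)
    (hl : ∀ U ∈ pg B, ∀ κ : Cardinal.{0}, ℵ₀ ≤ κ →
      Order.succ κ ≤ #{V | V ∈ B ∧ U ⊆ V ∧ r V ≤ r U} →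
      #{V | V ∈ B ∧ U ⊆ V ∧ r V ≤ r U} ≤ plus κ n →
      Ladder U (Order.succ κ) ∨ ∀ U' ∈ pg B, U' ⊆ U → r U ≤ r U' →
        ∃ A, Cellular U' A ∧ Order.succ κ ≤ #A) (hs : HasStrategy X) :
    HasTactic X (n + 2) :=
  hasTactic_of_hyp hB (hyp_of_bowtie hB hb hl) hs

end Pool.Agent.helper12.BM
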