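import Pool.Agent.helper12.BM.Game

/-!
# The Banach-Mazur game: tactics from coding data
-/

set_option autoImplicit false

open Set

namespace Pool.Agent.helper12.BM

variable {X : Type} [TopologicalSpace X]

/-- coding data: the history below the basic set `U` is coded by an ordinal, the code drops with
each of the next `m` moves, and the last code is shown by a cell -/
structure Coder (P : Set (Set X)) (S : Set X → Set (Set X)) (m : ℕ) where
  /-- the first codes -/
  code0 : Set X → List (Set X) → Ordinal.{0}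
  /-- the change of the codes -/
  step : Set X → ℕ → Set X → Ordinal.{0} → Ordinal.{0}
  /-- the codes which can be recovered -/
  N : Set X → ℕ → Set X → Set Ordinal.{0}
  /-- the bounds -/
  bd : Set X → ℕ → Ordinal.{0}
  /-- the cells -/
  cell : Set X → Set X → Ordinal.{0} → Set X
  mem_P : ∀ U ∈ P, NO U
  mem_S : ∀ U, ∀ V ∈ S U, U ⊆ V
  code0_lt : ∀ U ∈ P, ∀ l : List (Set X), (∀ V ∈ l, V ∈ S U) → code0 U l < bd U 0
  code0_inj : ∀ U ∈ P, ∀ l l' : List (Set X), (∀ V ∈ l, V ∈ S U) → (∀ V ∈ l', V ∈ S U) →
    code0 U l = code0 U l' → l = l'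
  step_lt : ∀ U ∈ P, ∀ i < m, ∀ W, NO W → W ⊆ U → ∀ c ∈ N U i W, c < bd U i →
    step U i W c < bd U (i + 1)
  step_inj : ∀ U ∈ P, ∀ i < m, ∀ W, NO W → W ⊆ U → ∀ c ∈ N U i W, ∀ c' ∈ N U i W,
    step U i W c = step U i W c' → c = c'
  force : ∀ U ∈ P, ∀ i < m, ∀ c < bd U i, ∀ W, NO W → W ⊆ U →
    ∃ W', NO W' ∧ W' ⊆ W ∧ ∀ W'', NO W'' → W'' ⊆ W' → c ∈ N U i W''
  cell_ok : ∀ U ∈ P, ∀ U' ∈ P, U ∈ S U' → ∀ a < bd U m, NO (cell U U' a) ∧ cell U U' a ⊆ U'
  cell_disj : ∀ U ∈ P, ∀ U' ∈ P, U ∈ S U' → ∀ a < bd U m, ∀ b < bd U m, a ≠ b →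
    Disjoint (cell U U' a) (cell U U' b)

/-- the first element of a list of sets -/
def hd (l : List (Set X)) : Set X := l.headD ∅

omit [TopologicalSpace X] in
@[simp] theorem hd_cons (B : Set X) (h : List (Set X)) : hd (B :: h) = B := rfl

omit [TopologicalSpace X] in
theorem hd_drop {h : List (Set X)} {i : ℕ} (hi : i < h.length) : hd (h.drop i) = h[i] := by
  rw [List.drop_eq_getElem_cons hi, hd_cons]

omit [TopologicalSpace X] in
theorem hd_drop_mem {h : List (Set X)} {i : ℕ} (hi : i < h.length) : hd (h.drop i) ∈ h := by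
  rw [hd_drop hi]; exact List.getElem_mem hi

section

variable {P : Set (Set X)} {S : Set X → Set (Set X)} {m : ℕ} (C : Coder P S m)
  (s : List (Set X) → Set X)

/-- the codes -/
noncomputable def cd : ℕ → List (Set X) → Ordinal.{0}
  | 0, h => C.code0 (hd h) h
  | _ + 1, [] => 0
  | i + 1, B :: h => C.step (hd (h.drop i)) i B (cd i h)

/-- the fake move of I -/
noncomputable def fk (h : List (Set X)) : Set X :=
  if m < h.length then C.cell (hd (h.drop m)) (hd h) (cd C m h) else hd h

/-- the fake moves of I -/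
noncomputable def sg : List (Set X) → List (Set X)
  | [] => []
  | B :: h => fk C (B :: h) :: sg h

/-- good answers -/
def Shr (h : List (Set X)) (W : Set X) : Prop :=
  NO W ∧ W ⊆ s (sg C h) ∧ ∀ i < m, i < h.length → ∀ W', NO W' → W' ⊆ W →
    cd C i h ∈ C.N (hd (h.drop i)) i W'

open Classical in
/-- the answer of II -/
noncomputable def mv (h : List (Set X)) : Set X :=
  if hh : ∃ W, Shr C s h W then hh.choose else ∅

/-- good histories -/
def Good : List (Set X) → Prop
  | [] => True
  | B :: h => Good h ∧ B ∈ P ∧ (∀ V ∈ B :: h, V ∈ S B) ∧ (h ≠ [] → B ⊆ mv C s h)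

variable {C s}

theorem mv_spec {h : List (Set X)} (hne : (mv C s h).Nonempty) : Shr C s h (mv C s h) := by
  unfold mv at hne ⊢
  split_ifs at hne ⊢ with hh
  · exact hh.choose_spec
  · exact absurd hne (by simp)

theorem Good.drop {h : List (Set X)} (hg : Good C s h) (i : ℕ) : Good C s (h.drop i) := by
  induction i generalizing h with
  | zero => simpa using hg
  | succ i ih =>
    cases h with
    | nil => simpa using hg
    | cons B h => rw [List.drop_succ_cons]; exact ih hg.1

theorem Good.mem {h : List (Set X)} (hg : Good C s h) {V : Set X} (hV : V ∈ h) : V ∈ P := by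
  induction h with
  | nil => simp at hV
  | cons B h ih =>
    rcases List.mem_cons.1 hV with rfl | hV
    · exact hg.2.1
    · exact ih hg.1 hV

theorem Good.sub {h : List (Set X)} {B : Set X} (hg : Good C s (B :: h)) {V : Set X}
    (hV : V ∈ B :: h) : B ⊆ V := C.mem_S _ _ (hg.2.2.1 V hV)

theorem Good.mem_N {h : List (Set X)} {B : Set X} (hg : Good C s (B :: h)) {i : ℕ} (hi : i < m)
    (hih : i < h.length) : cd C i h ∈ C.N (hd (h.drop i)) i B := by
  have hne : h ≠ [] := by rintro rfl; simp at hih
  have h1 := hg.2.2.2 hne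
  have h2 := C.mem_P B hg.2.1
  exact (mv_spec (h2.2.mono h1)).2.2 i hi hih B h2 h1

theorem Good.cd_lt {i : ℕ} : ∀ {h : List (Set X)}, Good C s h → i ≤ m → i < h.length →
    cd C i h < C.bd (hd (h.drop i)) i := by
  induction i with
  | zero =>
    intro h hg _ hi
    cases h with
    | nil => simp at hi
    | cons B h =>
      simp only [cd, List.drop_zero, hd_cons]
      exact C.code0_lt B hg.2.1 _ hg.2.2.1
  | succ i ih =>
    intro h hg him hi
    cases h with
    | nil => simp at hi
    | cons B h =>
      have hi' : i < h.length := by simpa using hi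
      simp only [cd, List.drop_succ_cons]
      have h1 := hd_drop_mem hi'
      exact C.step_lt _ (hg.1.mem h1) i him B (C.mem_P B hg.2.1)
        (hg.sub (List.mem_cons_of_mem _ h1)) _ (hg.mem_N him hi') (ih hg.1 (by omega) hi')

theorem Good.fk_spec {h : List (Set X)} {B : Set X} (hg : Good C s (B :: h)) :
    NO (fk C (B :: h)) ∧ fk C (B :: h) ⊆ B := by
  unfold fk
  split_ifs with hm
  · have h1 := hd_drop_mem hm
    exact C.cell_ok _ (hg.mem h1) _ hg.2.1 (hg.2.2.1 _ h1) _ (hg.cd_lt le_rfl hm)
  · exact ⟨C.mem_P B hg.2.1, subset_rfl⟩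

theorem sg_ne_nil {h : List (Set X)} (h1 : sg C h ≠ []) : h ≠ [] := by
  rintro rfl; exact h1 rfl

theorem Good.sg_leg {h : List (Set X)} (hg : Good C s h) : Leg s (sg C h) := by
  induction h with
  | nil => trivial
  | cons B h ih =>
    have h1 := hg.fk_spec
    refine ⟨ih hg.1, h1.1, fun hne => ?_⟩
    have h2 := hg.2.2.2 (sg_ne_nil hne)
    exact h1.2.trans (h2.trans (mv_spec ((C.mem_P B hg.2.1).2.mono h2)).2.1)

theorem Good.exists_shr (hs : Wins (fun l => l) s) {h : List (Set X)} {B : Set X}
    (hg : Good C s (B :: h)) : ∃ W, Shr C s (B :: h) W := by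
  have h0 := hs.legal (A := fk C (B :: h)) (l := sg C h) hg.sg_leg
  have hB : s (sg C (B :: h)) ⊆ B := h0.2.trans hg.fk_spec.2
  have key : ∀ k ≤ m, ∃ W, NO W ∧ W ⊆ s (sg C (B :: h)) ∧ ∀ i < k, i < (B :: h).length →
      ∀ W', NO W' → W' ⊆ W → cd C i (B :: h) ∈ C.N (hd ((B :: h).drop i)) i W' := by
    intro k
    induction k with
    | zero => intro _; exact ⟨_, h0.1, subset_rfl, fun i hi => absurd hi (by omega)⟩
    | succ k ih =>
      intro hk
      obtain ⟨W, h1, h2, h3⟩ := ih (by omega)
      by_cases hkl : k < (B :: h).length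
      · have h4 := hd_drop_mem hkl
        obtain ⟨W', h5, h6, h7⟩ := C.force _ (hg.mem h4) k hk _ (hg.cd_lt (by omega) hkl) W h1
          ((h2.trans hB).trans (hg.sub h4))
        refine ⟨W', h5, h6.trans h2, fun i hi hil W'' h8 h9 => ?_⟩
        rcases Nat.lt_succ_iff_lt_or_eq.1 hi with hi | rfl
        · exact h3 i hi hil W'' h8 (h9.trans h6)
        · exact h7 W'' h8 h9
      · refine ⟨W, h1, h2, fun i hi hil W'' h8 h9 => ?_⟩
        exact h3 i (by omega) hil W'' h8 h9
  obtain ⟨W, h1, h2, h3⟩ := key m le_rfl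
  exact ⟨W, h1, h2, h3⟩

theorem Good.mv_shr (hs : Wins (fun l => l) s) {h : List (Set X)} {B : Set X}
    (hg : Good C s (B :: h)) : Shr C s (B :: h) (mv C s (B :: h)) := by
  have h1 := hg.exists_shr hs
  unfold mv
  rw [dif_pos h1]
  exact h1.choose_spec

theorem Good.mv_sub (hs : Wins (fun l => l) s) {h : List (Set X)} {B : Set X}
    (hg : Good C s (B :: h)) : mv C s (B :: h) ⊆ fk C (B :: h) :=
  (hg.mv_shr hs).2.1.trans (hs.legal (A := fk C (B :: h)) (l := sg C h) hg.sg_leg).2

/-- the histories can be recovered from their last `m + 1` entries and the last code -/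
theorem Good.eq_of_code {h h' : List (Set X)} (hg : Good C s h) (hg' : Good C s h')
    (hm : m < h.length) (hm' : m < h'.length) (ht : h.take (m + 1) = h'.take (m + 1))
    (hc : cd C m h = cd C m h') : h = h' := by
  have hget : ∀ i, i ≤ m → ∀ (hi : i < h.length) (hi' : i < h'.length), h[i] = h'[i] := by
    intro i him hi hi'
    have e1 : (h.take (m + 1))[i]? = h[i]? := by
      rw [List.getElem?_take]; simp; omega
    have e2 : (h'.take (m + 1))[i]? = h'[i]? := by
      rw [List.getElem?_take]; simp; omega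
    rw [ht, e2, List.getElem?_eq_getElem hi, List.getElem?_eq_getElem hi'] at e1
    exact (Option.some.inj e1).symm
  have key : ∀ k ≤ m, cd C (m - k) (h.drop k) = cd C (m - k) (h'.drop k) := by
    intro k
    induction k with
    | zero => intro _; simpa using hc
    | succ k ih =>
      intro hk
      have h1 := ih (by omega)
      set i := m - (k + 1) with hi
      have hki : m - k = i + 1 := by omega
      have hkl : k < h.length := by omega
      have hkl' : k < h'.length := by omega
      rw [hki, List.drop_eq_getElem_cons hkl, List.drop_eq_getElem_cons hkl'] at h1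
      simp only [cd] at h1
      have e1 : (h.drop (k + 1)).drop i = h.drop m := by rw [List.drop_drop]; congr 1; omega
      have e2 : (h'.drop (k + 1)).drop i = h'.drop m := by rw [List.drop_drop]; congr 1; omega
      have e3 : hd (h.drop m) = hd (h'.drop m) := by
        rw [hd_drop hm, hd_drop hm', hget m le_rfl hm hm']
      have g1 : Good C s (h[k] :: h.drop (k + 1)) := by
        rw [← List.drop_eq_getElem_cons hkl]; exact hg.drop k
      have g2 : Good C s (h'[k] :: h'.drop (k + 1)) := by
        rw [← List.drop_eq_getElem_cons hkl']; exact hg'.drop k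
      have n1 := g1.mem_N (i := i) (by omega) (by rw [List.length_drop]; omega)
      have n2 := g2.mem_N (i := i) (by omega) (by rw [List.length_drop]; omega)
      have e4 : h[k] = h'[k] := hget k (by omega) hkl hkl'
      rw [e1] at h1 n1
      rw [e2] at h1 n2
      rw [← e3, ← e4] at h1 n2
      have hb := hd_drop_mem hm
      refine C.step_inj _ (hg.mem hb) i (by omega) h[k] (C.mem_P _ g1.2.1) ?_ _ n1 _ n2 h1
      refine g1.sub (List.mem_cons_of_mem _ ?_)
      rw [← e1]
      exact hd_drop_mem (h := h.drop (k + 1)) (i := i) (by rw [List.length_drop]; omega)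
  have h1 := key m le_rfl
  rw [Nat.sub_self] at h1
  simp only [cd] at h1
  have e3 : hd (h'.drop m) = hd (h.drop m) := by
    rw [hd_drop hm, hd_drop hm', hget m le_rfl hm hm']
  rw [e3] at h1
  have g1 : Good C s (h[m] :: h.drop (m + 1)) := by
    rw [← List.drop_eq_getElem_cons hm]; exact hg.drop m
  have g2 : Good C s (h'[m] :: h'.drop (m + 1)) := by
    rw [← List.drop_eq_getElem_cons hm']; exact hg'.drop m
  have h2 : h.drop m = h'.drop m := by
    refine C.code0_inj _ (hg.mem (hd_drop_mem hm)) _ _ ?_ ?_ h1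
    · intro V hV
      rw [hd_drop hm]
      refine g1.2.2.1 V ?_
      rw [← List.drop_eq_getElem_cons hm]; exact hV
    · intro V hV
      rw [← e3, hd_drop hm']
      refine g2.2.2.1 V ?_
      rw [← List.drop_eq_getElem_cons hm']; exact hV
  have h3 : h.take m = h'.take m := by
    have := congrArg (List.take m) ht
    rwa [List.take_take, List.take_take, min_eq_left (Nat.le_succ m)] at this
  rw [← List.take_append_drop m h, ← List.take_append_drop m h', h2, h3]

end

end Pool.Agent.helper12.BM
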