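import Mathlib

/-!
# The Banach-Mazur game: definitions
-/

set_option autoImplicit false

open Set

namespace Pool.Agent.helper12.BM

/-- The moves `U j, U (j - 1), ..., U 0` of player I, the last move first. -/
def hist {α : Type} (U : ℕ → α) : ℕ → List α
  | 0 => [U 0]
  | j + 1 => U (j + 1) :: hist U j

section

variable {X : Type} [TopologicalSpace X]

/-- `W` is a nonempty open set. -/
def NO (W : Set X) : Prop := IsOpen W ∧ W.Nonempty

/-- In the Banach-Mazur game on `X` player I makes the moves `U 0, U 1, ...` and II answers the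
move `U j` by `T (v (hist U j))`, that is, II sees the moves made so far through `v`. `Wins v T`:
in every play in which II follows `T`, all answers are legal (nonempty, open and contained in the
last move of I), and II wins if the play is infinite. -/
def Wins (v : List (Set X) → List (Set X)) (T : List (Set X) → Set X) : Prop :=
  ∀ U : ℕ → Set X, (∀ j, NO (U j)) →
    (∀ j, (∀ i < j, U (i + 1) ⊆ T (v (hist U i))) →
      NO (T (v (hist U j))) ∧ T (v (hist U j)) ⊆ U j) ∧
    ((∀ j, U (j + 1) ⊆ T (v (hist U j))) → (⋂ j, U j).Nonempty)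

/-- `A` is a cellular family in `U`. -/
def Cellular (U : Set X) (A : Set (Set X)) : Prop :=
  (∀ W ∈ A, NO W ∧ W ⊆ U) ∧ A.PairwiseDisjoint id

/-- The purgation of `B`. -/
def pg (B : Set (Set X)) : Set (Set X) :=
  {U | U ∈ B ∧ (∀ x ∈ U, ¬ IsOpen {x}) ∧
    ∀ W, NO W → W ⊆ U → ∃ A, Cellular W A ∧ Cardinal.mk A = Cardinal.aleph0}

/-- `B` is a `π`-base. -/
def PiBase (B : Set (Set X)) : Prop := (∀ U ∈ B, NO U) ∧ ∀ U, NO U → ∃ V ∈ B, V ⊆ U

end

/-- II has a winning strategy in the Banach-Mazur game on `X`. -/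
def HasStrategy (X : Type) [TopologicalSpace X] : Prop :=
  ∃ T : List (Set X) → Set X, Wins (fun l => l) T

/-- II has a `k`-tactic in the Banach-Mazur game on `X`: a rule which computes the moves of II from
the last `k` moves of I only (all of them when fewer have been made). -/
def HasTactic (X : Type) [TopologicalSpace X] (k : ℕ) : Prop :=
  ∃ T : List (Set X) → Set X, Wins (fun l => l.take k) T

/-- The cardinal `κ^{+n}`. -/
noncomputable def plus (κ : Cardinal.{0}) : ℕ → Cardinal.{0}
  | 0 => κ
  | n + 1 => Order.succ (plus κ n)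

section

variable {X : Type} [TopologicalSpace X]

/-- A ladder of height `μ` on `U`: a monotone map from the nonempty open subsets of `U` to the
ordinals below `μ` which is unbounded below each of them. -/
def Ladder (U : Set X) (μ : Cardinal.{0}) : Prop :=
  ∃ d : Set X → Ordinal.{0}, (∀ W, NO W → W ⊆ U → d W < μ.ord) ∧
    (∀ W W', NO W → NO W' → W ⊆ U → W' ⊆ W → d W ≤ d W') ∧
    ∀ W, NO W → W ⊆ U → ∀ a < μ.ord, ∃ W', NO W' ∧ W' ⊆ W ∧ a ≤ d W'

end

/-- A family `B` of sets is mild for `κ` and `m` if it is graded by a rank function `r` with values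
below `κ^{+(m+1)}` such that every member of `B` has at most `κ^{+m}` supersets of rank at most `a`
in `B`, for each `a` below `κ^{+(m+1)}`. -/
def Mild {Z : Type} (κ : Cardinal.{0}) (m : ℕ) (B : Set (Set Z)) : Prop :=
  ∃ r : Set Z → Ordinal.{0}, (∀ V ∈ B, r V < (plus κ (m + 1)).ord) ∧
    ∀ U ∈ B, ∀ a < (plus κ (m + 1)).ord,
      Cardinal.mk {V | V ∈ B ∧ U ⊆ V ∧ r V ≤ a} ≤ plus κ m

end Pool.Agent.helper12.BM
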