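import Pool.Agent.helper12.BM.Prod

/-!
# The Banach-Mazur game: dense subspaces of products
-/

set_option autoImplicit false

open Set Cardinal

namespace Pool.Agent.helper12.BM

variable {I : Type} {Y : I → Type} [∀ i, TopologicalSpace (Y i)]

/-- the factors with two disjoint nonempty open subsets -/
def twoOpen (Y : I → Type) [∀ i, TopologicalSpace (Y i)] : Set I :=
  {i | ∃ O O' : Set (Y i), NO O ∧ NO O' ∧ Disjoint O O'}

theorem NO.trace {Z : Type} [TopologicalSpace Z] {D : Set Z} (hD : Dense D) {V : Set Z}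
    (hV : NO V) : NO (Subtype.val ⁻¹' V : Set D) := by
  refine ⟨hV.1.preimage continuous_subtype_val, ?_⟩
  obtain ⟨y, hy, hyD⟩ := hD.inter_open_nonempty V hV.1 hV.2
  exact ⟨⟨y, hyD⟩, hy⟩

theorem NO.exists_trace {Z : Type} [TopologicalSpace Z] {D : Set Z} {U : Set D} (hU : NO U) :
    ∃ O, NO O ∧ U = Subtype.val ⁻¹' O := by
  obtain ⟨O, hO, rfl⟩ := isOpen_induced_iff.1 hU.1
  obtain ⟨x, hx⟩ := hU.2
  exact ⟨O, ⟨hO, x.1, hx⟩, rfl⟩

theorem trace_sub {Z : Type} [TopologicalSpace Z] {D : Set Z} (hD : Dense D) {V V' : Set Z}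
    (hV : IsOpen V) (hV' : interior (closure V') = V')
    (h : (Subtype.val ⁻¹' V : Set D) ⊆ Subtype.val ⁻¹' V') : V ⊆ V' := by
  have h1 : V ∩ D ⊆ V' := fun y hy => h (show (⟨y, hy.2⟩ : D) ∈ Subtype.val ⁻¹' V from hy.1)
  have h2 : V ⊆ closure V' := (hD.open_subset_closure_inter hV).trans (closure_mono h1)
  rw [← hV']
  exact interior_maximal h2 hV

theorem box_regular {B : ∀ i, Set (Set (Y i))} (hr : ∀ i, ∀ V ∈ B i, interior (closure V) = V)
    {W : Set (∀ i, Y i)} (hW : W ∈ box B) : interior (closure W) = W := by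
  obtain ⟨F, v, hv, rfl⟩ := hW
  rw [closure_pi_set, interior_pi_set F.finite_toSet]
  exact Set.pi_congr rfl fun i hi => hr i _ (hv i hi)

/-- a product of open sets over a finite set, with one more coordinate -/
theorem NO_update {F : Finset I} {v : ∀ i, Set (Y i)} (hv : ∀ i ∈ F, IsOpen (v i))
    (hne : (Set.pi (↑F : Set I) v).Nonempty) {i0 : I} (hi0 : i0 ∉ F) {O : Set (Y i0)} (hO : NO O) :
    NO (Set.pi (↑F : Set I) v ∩ {y | y i0 ∈ O}) := by
  classical
  obtain ⟨y, hy⟩ := hne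
  obtain ⟨z, hz⟩ := hO.2
  refine ⟨(isOpen_set_pi F.finite_toSet hv).inter (hO.1.preimage (continuous_apply _)),
    Function.update y i0 z, fun i hi => ?_, ?_⟩
  · have : i ≠ i0 := fun hh => hi0 (hh ▸ hi)
    rw [Function.update_of_ne this]
    exact hy i hi
  · change Function.update y i0 z i0 ∈ O
    rw [Function.update_self]
    exact hz

/-- ladders in dense subspaces of products -/
theorem ladder_dense {μ : Cardinal.{0}} (hμ : ℵ₀ ≤ μ) (h : μ ≤ #(twoOpen Y))
    {E : Set (∀ i, Y i)} (hE : Dense E) (U : Set E) : Ladder U μ := by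
  classical
  have h1 : lift.{0, 1} #(Iio μ.ord) ≤ lift.{1, 0} #(twoOpen Y) := by
    rw [Cardinal.mk_Iio_ordinal, Cardinal.card_ord, Cardinal.lift_lift]
    simpa using h
  obtain ⟨e⟩ := Cardinal.lift_mk_le'.1 h1
  have hlim := Cardinal.isSuccLimit_ord hμ
  -- the supports
  let D : Set E → Set (Finset I) := fun W =>
    {F | ∃ v : ∀ i, Set (Y i), (Set.pi (↑F : Set I) v).Nonempty ∧
      (Subtype.val ⁻¹' (Set.pi (↑F : Set I) v) : Set E) ⊆ W ∧ ∀ i ∈ F, IsOpen (v i)}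
  let ht : Finset I → Set Ordinal.{0} := fun F => {a | ∀ b : Iio μ.ord, (e b).1 ∈ F → b.1 < a}
  have hD : ∀ W, NO W → (D W).Nonempty := by
    intro W hW
    obtain ⟨O, hO, rfl⟩ := hW.exists_trace
    obtain ⟨x, hx⟩ := hO.2
    obtain ⟨F, u, hu, hsub⟩ := isOpen_pi_iff.1 hO.1 x hx
    exact ⟨F, u, ⟨x, fun i hi => (hu i hi).2⟩, preimage_mono hsub, fun i hi => (hu i hi).1⟩
  have hht : ∀ F : Finset I, ∃ a < μ.ord, a ∈ ht F := by
    intro F
    induction F using Finset.induction_on with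
    | empty => exact ⟨0, hlim.bot_lt, fun b hb => absurd hb (by simp)⟩
    | insert i F _ ih =>
      obtain ⟨a, ha, hF⟩ := ih
      by_cases hi : ∃ b : Iio μ.ord, (e b).1 = i
      · obtain ⟨b, rfl⟩ := hi
        refine ⟨max a (Order.succ b.1), max_lt ha (hlim.succ_lt b.2), fun b' hb' => ?_⟩
        rcases Finset.mem_insert.1 hb' with h2 | h2
        · have : b' = b := e.injective (Subtype.ext h2)
          rw [this]
          exact (Order.lt_succ b.1).trans_le (le_max_right _ _)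
        · exact (hF b' h2).trans_le (le_max_left _ _)
      · refine ⟨a, ha, fun b' hb' => ?_⟩
        rcases Finset.mem_insert.1 hb' with h2 | h2
        · exact absurd ⟨b', h2⟩ hi
        · exact hF b' h2
  have hne : ∀ W, NO W → {a | ∃ F ∈ D W, a ∈ ht F}.Nonempty := by
    intro W hW
    obtain ⟨F, hF⟩ := hD W hW
    obtain ⟨a, _, haF⟩ := hht F
    exact ⟨a, F, hF, haF⟩
  refine ⟨fun W => sInf {a | ∃ F ∈ D W, a ∈ ht F}, ?_, ?_, ?_⟩
  · intro W hW _
    obtain ⟨F, hF⟩ := hD W hW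
    obtain ⟨a, ha, haF⟩ := hht F
    have h2 : sInf {a | ∃ F ∈ D W, a ∈ ht F} ≤ a := csInf_le' ⟨F, hF, haF⟩
    exact h2.trans_lt ha
  · intro W W' _ hW' _ hsub
    obtain ⟨F', ⟨v, h3, h4, h5⟩, h6⟩ := csInf_mem (hne W' hW')
    exact csInf_le' ⟨F', ⟨v, h3, h4.trans hsub, h5⟩, h6⟩
  · intro W hW _ a ha
    obtain ⟨F, v, h3, h4, h5⟩ := hD W hW
    obtain ⟨a', ha', haF⟩ := hht F
    set b : Iio μ.ord := ⟨max a a', max_lt ha ha'⟩ with hb
    have hbF : (e b).1 ∉ F := fun hh => absurd (haF b hh) (not_lt.2 (le_max_right _ _))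
    obtain ⟨O, O', hO, hO', hOO⟩ := (e b).2
    have hNO := (NO_update h5 h3 hbF hO).trace hE
    refine ⟨_, hNO, fun y hy => h4 hy.1, le_csInf (hne _ hNO) ?_⟩
    rintro c ⟨F', ⟨v', h6, h7, h8⟩, h9⟩
    have hmem : (e b).1 ∈ F' := by
      by_contra hcon
      obtain ⟨y, hy⟩ := ((NO_update h8 h6 hcon hO').trace hE).2
      have h10 := (h7 hy.1).2
      exact disjoint_left.1 hOO h10 hy.2
    exact ((le_max_left a a').trans_lt (h9 b hmem)).le

/-- dense subspaces of products -/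
theorem hasTactic_dense {κ : Cardinal.{0}} (hκ : ℵ₀ ≤ κ) (m : ℕ) {E : Set (∀ i, Y i)}
    (hE : Dense E)
    (hfac : ∀ i, ∃ B : Set (Set (Y i)), PiBase B ∧ (∀ V ∈ B, interior (closure V) = V) ∧
      Mild κ m B)
    (hcell : ∀ U ∈ pg {W : Set E | NO W}, ∃ A, Cellular U A ∧ κ ≤ #A)
    (hm : m = 0 ∨ plus κ m ≤ #(twoOpen Y)) (hs : HasStrategy E) : HasTactic E (m + 2) := by
  classical
  rcases isEmpty_or_nonempty (∀ i, Y i) with he | hne
  · exact hasTactic_of_isEmpty ⟨fun x => he.elim x.1⟩ _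
  choose B hB hreg hM using hfac
  choose r hr hc using hM
  have hlim := Cardinal.isSuccLimit_ord (plus_inf hκ (m + 1))
  have hbox := box_piBase hB
  let T : Set (∀ i, Y i) → Set E := fun V => Subtype.val ⁻¹' V
  have hTsub : ∀ V ∈ box B, ∀ V' ∈ box B, T V ⊆ T V' → V ⊆ V' := fun V hV V' hV' h =>
    trace_sub hE (hbox.1 V hV).1 (box_regular hreg hV') h
  have hTinj : ∀ V ∈ box B, ∀ V' ∈ box B, T V = T V' → V = V' := fun V hV V' hV' h =>
    (hTsub V hV V' hV' h.subset).antisymm (hTsub V' hV' V hV h.symm.subset)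
  let BE : Set (Set E) := T '' box B
  have hBE : PiBase BE := by
    constructor
    · rintro _ ⟨V, hV, rfl⟩
      exact (hbox.1 V hV).trace hE
    · intro U hU
      obtain ⟨O, hO, rfl⟩ := hU.exists_trace
      obtain ⟨V, hV, hVO⟩ := hbox.2 O hO
      exact ⟨T V, ⟨V, hV, rfl⟩, preimage_mono hVO⟩
  let rE : Set E → Ordinal.{0} := fun W =>
    if h : ∃ V, V ∈ box B ∧ W = T V then rr B r h.choose else 0
  have hrE : ∀ V ∈ box B, rE (T V) = rr B r V := by
    intro V hV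
    have h : ∃ V', V' ∈ box B ∧ T V = T V' := ⟨V, hV, rfl⟩
    simp only [rE]
    rw [dif_pos h]
    exact congrArg (rr B r) (hTinj V hV _ h.choose_spec.1 h.choose_spec.2).symm
  have hpg : ∀ U ∈ pg BE, U ∈ pg {W : Set E | NO W} := fun U hU => ⟨hBE.1 U hU.1, hU.2⟩
  refine hasTactic_of_hyp hBE (r := rE) (fun U hU => ⟨κ, m, hκ, le_rfl, ?_,
    fun U' hU' _ _ => hcell U' (hpg U' hU'), fun i hi him => ?_⟩) hs
  · obtain ⟨U0, hU0, rfl⟩ := hU.1
    have h1 : {V | V ∈ BE ∧ T U0 ⊆ V ∧ rE V ≤ rE (T U0)} ⊆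
        T '' {V | V ∈ box B ∧ U0 ⊆ V ∧ rr B r V ≤ rr B r U0} := by
      rintro _ ⟨⟨V, hV, rfl⟩, h2, h3⟩
      rw [hrE V hV, hrE U0 hU0] at h3
      exact ⟨V, ⟨hV, hTsub _ hU0 _ hV h2, h3⟩, rfl⟩
    refine (Cardinal.mk_le_mk_of_subset h1).trans (Cardinal.mk_image_le.trans ?_)
    exact box_count hB hlim.bot_lt hr (plus_inf hκ m) hc hU0
  · rcases hm with rfl | hm
    · omega
    · refine ladder_dense (plus_inf hκ i) (le_trans ?_ hm) hE U
      have : ∀ a b : ℕ, a ≤ b → plus κ a ≤ plus κ b := by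
        intro a b hab
        induction hab with
        | refl => exact le_rfl
        | step _ ih => exact ih.trans (Order.le_succ _)
      exact this i m him

end Pool.Agent.helper12.BM
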