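import Pool.Agent.helper12.BM.Defs

/-!
# The Banach-Mazur game: legal positions
-/

set_option autoImplicit false

open Set

namespace Pool.Agent.helper12.BM

variable {X : Type} [TopologicalSpace X]

theorem hist_ne_nil {α : Type} (U : ℕ → α) (j : ℕ) : hist U j ≠ [] := by
  cases j <;> simp [hist]

theorem hist_length {α : Type} (U : ℕ → α) (j : ℕ) : (hist U j).length = j + 1 := by
  induction j with
  | zero => rfl
  | succ j ih => simp [hist, ih]

theorem hist_congr {α : Type} {U U' : ℕ → α} (j : ℕ) (h : ∀ i ≤ j, U i = U' i) :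
    hist U j = hist U' j := by
  induction j with
  | zero => simp only [hist]; rw [h 0 le_rfl]
  | succ j ih =>
    simp only [hist]
    rw [h (j + 1) le_rfl, ih fun i hi => h i (hi.trans (Nat.le_succ j))]

theorem hist_map {α β : Type} (U : ℕ → α) (f : α → β) (j : ℕ) :
    (hist U j).map f = hist (fun i => f (U i)) j := by
  induction j with
  | zero => rfl
  | succ j ih => simp only [hist, List.map_cons, ih]

/-- legal positions in which II follows `s` -/
def Leg (s : List (Set X) → Set X) : List (Set X) → Prop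
  | [] => True
  | A :: l => Leg s l ∧ NO A ∧ (l ≠ [] → A ⊆ s l)

theorem Leg.exists_seq {s : List (Set X) → Set X} {l : List (Set X)} {A : Set X}
    (h : Leg s (A :: l)) : ∃ U : ℕ → Set X, (∀ j, NO (U j)) ∧ hist U l.length = A :: l ∧
      ∀ i < l.length, U (i + 1) ⊆ s (hist U i) := by
  classical
  induction l generalizing A with
  | nil => exact ⟨fun _ => A, fun _ => h.2.1, rfl, fun i hi => absurd hi (by simp)⟩
  | cons B l ih =>
    obtain ⟨U, h1, h2, h3⟩ := ih h.1
    set n := l.length with hn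
    have hl : (B :: l).length = n + 1 := rfl
    let U' : ℕ → Set X := fun j => if j ≤ n then U j else A
    have e1 : ∀ i ≤ n, U' i = U i := fun i hi => by simp [U', hi]
    have e2 : ∀ j ≤ n, hist U' j = hist U j := fun j hj =>
      hist_congr j fun i hi => e1 i (hi.trans hj)
    have e3 : U' (n + 1) = A := by simp [U']
    refine ⟨U', ?_, ?_, ?_⟩
    · intro j
      by_cases hj : j ≤ n
      · rw [e1 j hj]; exact h1 j
      · simp only [U', if_neg hj]; exact h.2.1
    · rw [hl]
      simp only [hist]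
      rw [e3, e2 n le_rfl, h2]
    · intro i hi
      rw [hl] at hi
      rcases Nat.lt_succ_iff_lt_or_eq.1 hi with hi | hi
      · rw [e1 (i + 1) hi, e2 i hi.le]
        exact h3 i hi
      · rw [hi, e3, e2 n le_rfl, h2]
        exact h.2.2 (by simp)

theorem Wins.legal {s : List (Set X) → Set X} (hs : Wins (fun l => l) s) {l : List (Set X)}
    {A : Set X} (h : Leg s (A :: l)) : NO (s (A :: l)) ∧ s (A :: l) ⊆ A := by
  obtain ⟨U, h1, h2, h3⟩ := h.exists_seq
  have h4 := (hs U h1).1 l.length h3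
  dsimp only at h4
  rw [h2] at h4
  have h5 : U l.length = A := by
    cases l with
    | nil => simpa [hist] using h2
    | cons B l =>
      have : hist U (l.length + 1) = A :: B :: l := h2
      simp only [hist, List.cons.injEq] at this
      exact this.1
  rw [h5] at h4
  exact h4

/-- every two nonempty open subsets of `W` meet -/
def Irr (W : Set X) : Prop :=
  NO W ∧ ∀ V V', NO V → NO V' → V ⊆ W → V' ⊆ W → (V ∩ V').Nonempty

theorem Irr.mono {W W' : Set X} (h : Irr W) (h' : NO W') (hs : W' ⊆ W) : Irr W' :=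
  ⟨h', fun V V' hV hV' h1 h2 => h.2 V V' hV hV' (h1.trans hs) (h2.trans hs)⟩

/-- the fake moves of I in an irreducible set -/
def fake (s : List (Set X) → Set X) (U : ℕ → Set X) : ℕ → List (Set X)
  | 0 => [U 0]
  | j + 1 => (U (j + 1) ∩ s (fake s U j)) :: fake s U j

theorem Irr.inter_nonempty {s : List (Set X) → Set X} (hs : Wins (fun l => l) s) {W : Set X}
    (hW : Irr W) {U : ℕ → Set X} (hU : ∀ j, NO (U j)) (hUW : ∀ j, U j ⊆ W) :
    (⋂ j, U j).Nonempty := by
  have key : ∀ j, ∃ A l, fake s U j = A :: l ∧ Leg s (A :: l) ∧ A ⊆ U j := by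
    intro j
    induction j with
    | zero => exact ⟨U 0, [], rfl, ⟨trivial, hU 0, fun h => absurd rfl h⟩, subset_rfl⟩
    | succ j ih =>
      obtain ⟨A, l, h1, h2, h3⟩ := ih
      obtain ⟨h4, h5⟩ := hs.legal h2
      refine ⟨U (j + 1) ∩ s (A :: l), A :: l, by simp only [fake, h1], ⟨h2, ⟨?_, ?_⟩, fun _ =>
        inter_subset_right⟩, inter_subset_left⟩
      · exact (hU (j + 1)).1.inter h4.1
      · exact hW.2 _ _ (hU (j + 1)) h4 (hUW _) (h5.trans (h3.trans (hUW j)))
  let A : ℕ → Set X := fun j => (fake s U j).headD ∅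
  have hA : ∀ j, hist A j = fake s U j := by
    intro j
    induction j with
    | zero => rfl
    | succ j ih =>
      simp only [hist]
      rw [ih]
      rfl
  have h0 : ∀ j, NO (A j) := by
    intro j
    obtain ⟨B, l, h1, h2, h3⟩ := key j
    simp only [A, h1, List.headD_cons]
    exact h2.2.1
  have h1 : ∀ j, A j ⊆ U j := by
    intro j
    obtain ⟨B, l, h1, h2, h3⟩ := key j
    simp only [A, h1, List.headD_cons]
    exact h3
  obtain ⟨x, hx⟩ := (hs A h0).2 (fun j => by
    dsimp only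
    rw [hA]
    exact inter_subset_right)
  rw [mem_iInter] at hx
  exact ⟨x, mem_iInter.2 fun j => h1 j (hx j)⟩

/-- no nonempty open subset of `U` is irreducible -/
def Reg (U : Set X) : Prop := ∀ W, W ⊆ U → ¬ Irr W

theorem Reg.mono {U V : Set X} (h : Reg U) (hV : V ⊆ U) : Reg V := fun W hW =>
  h W (hW.trans hV)

theorem Reg.split {U : Set X} (h : Reg U) {W : Set X} (hW : NO W) (hWU : W ⊆ U) :
    ∃ V V', NO V ∧ NO V' ∧ V ⊆ W ∧ V' ⊆ W ∧ Disjoint V V' := by
  have h1 := h W hWU
  unfold Irr at h1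
  push Not at h1
  obtain ⟨V, V', h2, h3, h4, h5, h6⟩ := h1 hW
  exact ⟨V, V', h2, h3, h4, h5, disjoint_iff_inter_eq_empty.2 h6⟩

theorem Reg.mem_pg {B : Set (Set X)} {U : Set X} (h : Reg U) (hU : U ∈ B) : U ∈ pg B := by
  classical
  refine ⟨hU, ?_, ?_⟩
  · intro x hx hop
    refine h {x} (by simpa using hx) ⟨⟨hop, x, rfl⟩, ?_⟩
    intro V V' hV hV' h1 h2
    obtain ⟨y, hy⟩ := hV.2
    obtain ⟨z, hz⟩ := hV'.2
    have e1 : y = x := h1 hy
    have e2 : z = x := h2 hz
    exact ⟨x, e1 ▸ hy, e2 ▸ hz⟩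
  · intro W hW hWU
    have hsp : ∀ V : {V : Set X // NO V ∧ V ⊆ W}, ∃ Y : Set X × Set X, NO Y.1 ∧ NO Y.2 ∧
        Y.1 ⊆ V.1 ∧ Y.2 ⊆ V.1 ∧ Disjoint Y.1 Y.2 := by
      intro V
      obtain ⟨Y, Y', h1, h2, h3, h4, h5⟩ := h.split V.2.1 (V.2.2.trans hWU)
      exact ⟨(Y, Y'), h1, h2, h3, h4, h5⟩
    choose Y hY using hsp
    let b : ℕ → {V : Set X // NO V ∧ V ⊆ W} := fun n => Nat.rec ⟨W, hW, subset_rfl⟩
      (fun _ V => ⟨(Y V).2, (hY V).2.1, (hY V).2.2.2.1.trans V.2.2⟩) n
    have hb : ∀ n, (b (n + 1)).1 = (Y (b n)).2 := fun n => rfl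
    have hbm : ∀ n k, n ≤ k → (b k).1 ⊆ (b n).1 := by
      intro n k hk
      induction hk with
      | refl => exact subset_rfl
      | step _ ih => exact Subset.trans (by rw [hb]; exact (hY _).2.2.2.1) ih
    let a : ℕ → Set X := fun n => (Y (b n)).1
    have hdis : ∀ n k, n < k → Disjoint (a n) (a k) := by
      intro n k hk
      have h1 : a k ⊆ (b (n + 1)).1 := (hY (b k)).2.2.1.trans (hbm _ _ hk)
      rw [hb] at h1
      exact (hY (b n)).2.2.2.2.mono_right h1
    have hinj : Function.Injective a := by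
      intro n k hnk
      by_contra hne
      rcases lt_or_gt_of_ne hne with h1 | h1
      · have := hdis n k h1
        rw [hnk] at this
        obtain ⟨x, hx⟩ := (hY (b k)).1.2
        exact disjoint_left.1 this hx hx
      · have := hdis k n h1
        rw [hnk] at this
        obtain ⟨x, hx⟩ := (hY (b k)).1.2
        exact disjoint_left.1 this hx hx
    refine ⟨range a, ⟨?_, ?_⟩, ?_⟩
    · rintro _ ⟨n, rfl⟩
      exact ⟨(hY (b n)).1, (hY (b n)).2.2.1.trans (b n).2.2⟩
    · rintro _ ⟨n, rfl⟩ _ ⟨k, rfl⟩ hne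
      rcases lt_trichotomy n k with h1 | h1 | h1
      · exact hdis n k h1
      · exact absurd (congrArg a h1) hne
      · exact (hdis k n h1).symm
    · rw [Cardinal.mk_range_eq a hinj, Cardinal.mk_nat]

end Pool.Agent.helper12.BM
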