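import Pool.Agent.helper12.BM.Tac

/-!
# The Banach-Mazur game: the main theorem
-/

set_option autoImplicit false

open Set Cardinal

namespace Pool.Agent.helper12.BM

/-- sets of size at most `μ` are coded by the ordinals below `μ` -/
theorem exists_code (α : Type) {μ : Cardinal.{0}} (h : #α ≤ μ) :
    ∃ f : α → Ordinal.{0}, Function.Injective f ∧ ∀ a, f a < μ.ord := by
  have h1 : lift.{1, 0} #α ≤ lift.{0, 1} #(Iio μ.ord) := by
    rw [Cardinal.mk_Iio_ordinal, Cardinal.card_ord, Cardinal.lift_lift]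
    simpa using h
  obtain ⟨e⟩ := Cardinal.lift_mk_le'.1 h1
  exact ⟨fun a => (e a).1, fun a b hab => e.injective (Subtype.ext hab), fun a => (e a).2⟩

/-- the lists of elements of a small set are coded by ordinals -/
theorem exists_code_list {α : Type} (S : Set α) {μ : Cardinal.{0}} (hμ : ℵ₀ ≤ μ) (h : #S ≤ μ) :
    ∃ f : List α → Ordinal.{0}, (∀ l, (∀ a ∈ l, a ∈ S) → f l < μ.ord) ∧
      ∀ l l', (∀ a ∈ l, a ∈ S) → (∀ a ∈ l', a ∈ S) → f l = f l' → l = l' := by
  classical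
  let T := {l : List α // ∀ a ∈ l, a ∈ S}
  let g : List S → T := fun l => ⟨l.map Subtype.val, fun a ha => by
    obtain ⟨b, -, rfl⟩ := List.mem_map.1 ha
    exact b.2⟩
  have hg : Function.Surjective g := by
    rintro ⟨l, hl⟩
    induction l with
    | nil => exact ⟨[], rfl⟩
    | cons a l ih =>
      obtain ⟨l', h'⟩ := ih fun b hb => hl b (List.mem_cons_of_mem _ hb)
      refine ⟨⟨a, hl a List.mem_cons_self⟩ :: l', Subtype.ext ?_⟩
      have := congrArg Subtype.val h'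
      simp only [g] at this
      simp only [g, List.map_cons, this]
  have h1 : #T ≤ μ := (Cardinal.mk_le_of_surjective hg).trans
    ((Cardinal.mk_list_le_max S).trans (max_le hμ h))
  obtain ⟨f, hf, hlt⟩ := exists_code T h1
  refine ⟨fun l => if hl : ∀ a ∈ l, a ∈ S then f ⟨l, hl⟩ else 0, ?_, ?_⟩
  · intro l hl
    beta_reduce
    rw [dif_pos hl]
    exact hlt _
  · intro l l' hl hl' he
    beta_reduce at he
    rw [dif_pos hl, dif_pos hl'] at he
    exact congrArg Subtype.val (hf he)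

/-- the ordinals below a small ordinal are coded by smaller ordinals -/
theorem exists_code_ord (d : Ordinal.{0}) {μ : Cardinal.{0}} (h : d.card ≤ μ) :
    ∃ f : Ordinal.{0} → Ordinal.{0}, (∀ c < d, ∀ c' < d, f c = f c' → c = c') ∧
      ∀ c < d, f c < μ.ord := by
  classical
  have h1 : #(Iio d) ≤ #(Iio μ.ord) := by
    rw [Cardinal.mk_Iio_ordinal, Cardinal.mk_Iio_ordinal, Cardinal.card_ord]
    exact Cardinal.lift_le.2 h
  obtain ⟨e⟩ := Cardinal.le_def _ _ |>.1 h1
  refine ⟨fun c => if hc : c ∈ Iio d then (e ⟨c, hc⟩).1 else 0, ?_, ?_⟩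
  · intro c hc c' hc' he
    beta_reduce at he
    rw [dif_pos (mem_Iio.2 hc), dif_pos (mem_Iio.2 hc')] at he
    exact congrArg Subtype.val (e.injective (Subtype.ext he))
  · intro c hc
    beta_reduce
    rw [dif_pos (mem_Iio.2 hc)]
    exact (e ⟨c, hc⟩).2

theorem plus_inf {κ : Cardinal.{0}} (h : ℵ₀ ≤ κ) (n : ℕ) : ℵ₀ ≤ plus κ n := by
  induction n with
  | zero => exact h
  | succ n ih => exact ih.trans (Order.le_succ _)

variable {X : Type} [TopologicalSpace X]

/-- cells indexed by ordinals -/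
theorem exists_cells {U : Set X} {A : Set (Set X)} (hA : Cellular U A) {κ : Cardinal.{0}}
    (h : κ ≤ #A) : ∃ g : Ordinal.{0} → Set X, (∀ a < κ.ord, NO (g a) ∧ g a ⊆ U) ∧
      ∀ a < κ.ord, ∀ b < κ.ord, a ≠ b → Disjoint (g a) (g b) := by
  classical
  have h1 : lift.{0, 1} #(Iio κ.ord) ≤ lift.{1, 0} #A := by
    rw [Cardinal.mk_Iio_ordinal, Cardinal.card_ord, Cardinal.lift_lift]
    simpa using h
  obtain ⟨e⟩ := Cardinal.lift_mk_le'.1 h1
  refine ⟨fun a => if ha : a ∈ Iio κ.ord then (e ⟨a, ha⟩).1 else ∅, ?_, ?_⟩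
  · intro a ha
    beta_reduce
    rw [dif_pos (mem_Iio.2 ha)]
    exact hA.1 _ (e _).2
  · intro a ha b hb hab
    beta_reduce
    rw [dif_pos (mem_Iio.2 ha), dif_pos (mem_Iio.2 hb)]
    refine hA.2 (e _).2 (e _).2 fun h2 => hab ?_
    exact congrArg Subtype.val (e.injective (Subtype.ext h2))

/-- the regular members of `B` -/
def RP (B : Set (Set X)) : Set (Set X) := {U | U ∈ B ∧ Reg U}

/-- the counted sets above `U` -/
def RS (B : Set (Set X)) (r : Set X → Ordinal.{0}) (U : Set X) : Set (Set X) :=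
  {V | V ∈ B ∧ U ⊆ V ∧ r V ≤ r U}

/-- basic sets of minimal rank -/
theorem exists_sel {B : Set (Set X)} (hB : PiBase B) (r : Set X → Ordinal.{0}) :
    Nonempty (Sel (RP B) (RS B r)) := by
  classical
  have h1 : ∀ U : Set X, ∃ V, NO U → V ∈ B ∧ V ⊆ U ∧ ∀ V' ∈ B, V' ⊆ U → r V ≤ r V' := by
    intro U
    by_cases hU : NO U
    · obtain ⟨V0, hV0, hV0U⟩ := hB.2 U hU
      obtain ⟨V, hV, hmin⟩ := WellFounded.has_min (InvImage.wf r (wellFounded_lt (α := Ordinal.{0})))
        {V | V ∈ B ∧ V ⊆ U} ⟨V0, hV0, hV0U⟩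
      exact ⟨V, fun _ => ⟨hV.1, hV.2, fun V' h1 h2 => not_lt.1 (hmin V' ⟨h1, h2⟩)⟩⟩
    · exact ⟨∅, fun h => absurd h hU⟩
  choose bt hbt using h1
  exact ⟨{
    bt := bt
    mem := fun U hU hr => ⟨(hbt U hU).1, hr.mono (hbt U hU).2.1⟩
    sub := fun U hU => (hbt U hU).2.1
    rank := fun U U' hU hU' _ hsub hb => ⟨(hbt U hU).1, hb,
      (hbt U hU).2.2 _ (hbt U' hU').1 ((hbt U' hU').2.1.trans hsub)⟩ }⟩

/-- the hypothesis of the main theorem -/
def Hyp (m : ℕ) (B : Set (Set X)) (r : Set X → Ordinal.{0}) : Prop :=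
  ∀ U ∈ pg B, ∃ (κ : Cardinal.{0}) (j : ℕ), ℵ₀ ≤ κ ∧ j ≤ m ∧
    #{V | V ∈ B ∧ U ⊆ V ∧ r V ≤ r U} ≤ plus κ j ∧
    (∀ U' ∈ pg B, U' ⊆ U → r U ≤ r U' → ∃ A, Cellular U' A ∧ κ ≤ #A) ∧
    ∀ i, 1 ≤ i → i ≤ j → Ladder U (plus κ i)

theorem exists_coder {m : ℕ} {B : Set (Set X)} (hB : PiBase B) {r : Set X → Ordinal.{0}}
    (H : Hyp m B r) : Nonempty (Coder (RP B) (RS B r) m) := by
  classical
  unfold Hyp at H
  choose! κ j h1 h2 h3 h4 h5 using H
  have hpg : ∀ U ∈ RP B, U ∈ pg B := fun U hU => hU.2.mem_pg hU.1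
  -- the first codes
  have hc0 : ∀ U ∈ RP B, ∃ f : List (Set X) → Ordinal.{0},
      (∀ l, (∀ a ∈ l, a ∈ RS B r U) → f l < (plus (κ U) (j U)).ord) ∧
      ∀ l l', (∀ a ∈ l, a ∈ RS B r U) → (∀ a ∈ l', a ∈ RS B r U) → f l = f l' → l = l' :=
    fun U hU => exists_code_list _ (plus_inf (h1 U (hpg U hU)) _) (h3 U (hpg U hU))
  choose! f hf1 hf2 using hc0
  -- the ladders
  have hl : ∀ U ∈ RP B, ∀ i, 1 ≤ i → i ≤ j U → ∃ d : Set X → Ordinal.{0},
      (∀ W, NO W → W ⊆ U → d W < (plus (κ U) i).ord) ∧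
      (∀ W W', NO W → NO W' → W ⊆ U → W' ⊆ W → d W ≤ d W') ∧
      ∀ W, NO W → W ⊆ U → ∀ a < (plus (κ U) i).ord, ∃ W', NO W' ∧ W' ⊆ W ∧ a ≤ d W' :=
    fun U hU i hi hij => h5 U (hpg U hU) i hi hij
  choose! d hd1 hd2 hd3 using hl
  -- recoding
  have he : ∀ (μ : Cardinal.{0}) (o : Ordinal.{0}), ∃ g : Ordinal.{0} → Ordinal.{0}, o.card ≤ μ →
      (∀ c < o, ∀ c' < o, g c = g c' → c = c') ∧ ∀ c < o, g c < μ.ord := by
    intro μ o
    by_cases ho : o.card ≤ μ
    · obtain ⟨g, hg1, hg2⟩ := exists_code_ord o ho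
      exact ⟨g, fun _ => ⟨hg1, hg2⟩⟩
    · exact ⟨id, fun h => absurd h ho⟩
  choose E hE using he
  -- the cells
  have hcell : ∀ U ∈ RP B, ∀ U' ∈ RP B, U ∈ RS B r U' → ∃ g : Ordinal.{0} → Set X,
      (∀ a < (κ U).ord, NO (g a) ∧ g a ⊆ U') ∧
      ∀ a < (κ U).ord, ∀ b < (κ U).ord, a ≠ b → Disjoint (g a) (g b) := by
    intro U hU U' hU' hsub
    obtain ⟨A, hA, hκ⟩ := h4 U (hpg U hU) U' (hpg U' hU') hsub.2.1 hsub.2.2
    exact exists_cells hA hκ
  choose! cell hcell1 hcell2 using hcell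
  have hcard : ∀ U ∈ RP B, ∀ i, i < j U → ∀ W, NO W → W ⊆ U →
      (d U (j U - i) W).card ≤ plus (κ U) (j U - (i + 1)) := by
    intro U hU i hi W hW hWU
    have e1 := hd1 U hU (j U - i) (by omega) (by omega) W hW hWU
    rw [Cardinal.lt_ord] at e1
    have e2 : j U - i = (j U - (i + 1)) + 1 := by omega
    rw [e2] at e1 ⊢
    exact Order.lt_succ_iff.1 e1
  exact ⟨{
    code0 := f
    step := fun U i W c => if i < j U then E (plus (κ U) (j U - (i + 1))) (d U (j U - i) W) c else c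
    N := fun U i W => if i < j U then Iio (d U (j U - i) W) else univ
    bd := fun U i => (plus (κ U) (j U - i)).ord
    cell := cell
    mem_P := fun U hU => hB.1 U hU.1
    mem_S := fun U V hV => hV.2.1
    code0_lt := fun U hU l hl => hf1 U hU l hl
    code0_inj := fun U hU l l' hl hl' he => hf2 U hU l l' hl hl' he
    step_lt := by
      intro U hU i _ W hW hWU c hc hcb
      by_cases hij : i < j U
      · rw [if_pos hij] at hc ⊢
        exact (hE _ _ (hcard U hU i hij W hW hWU)).2 c hc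
      · rw [if_neg hij]
        have e1 : j U - (i + 1) = j U - i := by omega
        rw [e1]; exact hcb
    step_inj := by
      intro U hU i _ W hW hWU c hc c' hc' he
      by_cases hij : i < j U
      · rw [if_pos hij] at hc hc'
        rw [if_pos hij, if_pos hij] at he
        exact (hE _ _ (hcard U hU i hij W hW hWU)).1 c hc c' hc' he
      · rwa [if_neg hij, if_neg hij] at he
    force := by
      intro U hU i _ c hc W hW hWU
      by_cases hij : i < j U
      · have hlim := Cardinal.isSuccLimit_ord (plus_inf (h1 U (hpg U hU)) (j U - i))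
        obtain ⟨W', hW', hsub, hle⟩ := hd3 U hU (j U - i) (by omega) (by omega) W hW hWU
          (Order.succ c) (hlim.succ_lt hc)
        refine ⟨W', hW', hsub, fun W'' hW'' hs' => ?_⟩
        rw [if_pos hij]
        exact (Order.lt_succ c).trans_le (hle.trans
          (hd2 U hU (j U - i) (by omega) (by omega) W' W'' hW' hW'' (hsub.trans hWU) hs'))
      · refine ⟨W, hW, subset_rfl, fun W'' _ _ => ?_⟩
        rw [if_neg hij]
        exact mem_univ _
    cell_ok := by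
      intro U hU U' hU' hsub a ha
      have e1 : j U - m = 0 := by have := h2 U (hpg U hU); omega
      rw [e1] at ha
      exact hcell1 U hU U' hU' hsub a ha
    cell_disj := by
      intro U hU U' hU' hsub a ha b hb hab
      have e1 : j U - m = 0 := by have := h2 U (hpg U hU); omega
      rw [e1] at ha hb
      exact hcell2 U hU U' hU' hsub a ha b hb hab }⟩

/-- the main theorem -/
theorem hasTactic_of_hyp {m : ℕ} {B : Set (Set X)} (hB : PiBase B) {r : Set X → Ordinal.{0}}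
    (H : Hyp m B r) (hs : HasStrategy X) : HasTactic X (m + 2) := by
  obtain ⟨C⟩ := exists_coder hB H
  obtain ⟨L⟩ := exists_sel hB r
  obtain ⟨s, hs⟩ := hs
  exact hasTactic_of_coder hs C L

end Pool.Agent.helper12.BM
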