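import Pool.Agent.helper12.BM.Main

/-!
# The Banach-Mazur game: products
-/

set_option autoImplicit false

open Set Cardinal

namespace Pool.Agent.helper12.BM

variable {I : Type} {Y : I → Type}

/-- the values of a coordinate of a box are free off its support -/
theorem pi_free {F G : Finset I} {u v : ∀ i, Set (Y i)} (hne : (Set.pi (↑F : Set I) u).Nonempty)
    (hsub : Set.pi (↑F : Set I) u ⊆ Set.pi (↑G : Set I) v) :
    (∀ i ∈ G, i ∉ F → v i = Set.univ) ∧ ∀ i ∈ G, i ∈ F → u i ⊆ v i := by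
  classical
  obtain ⟨y, hy⟩ := hne
  have key : ∀ i ∈ G, ∀ z : Y i, (i ∈ F → z ∈ u i) → z ∈ v i := by
    intro i hi z hz
    have h1 : Function.update y i z ∈ Set.pi (↑F : Set I) u := by
      intro k hk
      by_cases hki : k = i
      · subst hki
        rw [Function.update_self]
        exact hz hk
      · rw [Function.update_of_ne hki]
        exact hy k hk
    have h2 := hsub h1 i hi
    rwa [Function.update_self] at h2
  exact ⟨fun i hi hF => eq_univ_of_forall fun z => key i hi z fun h => absurd h hF,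
    fun i hi _ z hz => key i hi z fun _ => hz⟩

/-- finite products of small sets are small -/
theorem mk_pi_le {F : Type} [Finite F] {T : F → Type} {μ : Cardinal.{0}} (hμ : ℵ₀ ≤ μ)
    (h : ∀ i, #(T i) ≤ μ) : #(∀ i, T i) ≤ μ := by
  rw [Cardinal.mk_pi]
  refine (Cardinal.prod_le_prod _ (fun _ => μ) h).trans ?_
  rw [Cardinal.prod_const']
  have := Fintype.ofFinite F
  rw [Cardinal.mk_fintype]
  exact Cardinal.power_nat_le hμ

variable [∀ i, TopologicalSpace (Y i)]

/-- the boxes -/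
def box (B : ∀ i, Set (Set (Y i))) : Set (Set (∀ i, Y i)) :=
  {W | ∃ (F : Finset I) (v : ∀ i, Set (Y i)), (∀ i ∈ F, v i ∈ B i) ∧ W = Set.pi (↑F : Set I) v}

theorem box_piBase {B : ∀ i, Set (Set (Y i))} (hB : ∀ i, PiBase (B i)) [hne : Nonempty (∀ i, Y i)] :
    PiBase (box B) := by
  classical
  obtain ⟨x0⟩ := hne
  constructor
  · rintro _ ⟨F, v, hv, rfl⟩
    refine ⟨isOpen_set_pi F.finite_toSet fun i hi => ((hB i).1 _ (hv i hi)).1, ?_⟩
    have h1 : ∀ i, ∃ z : Y i, i ∈ F → z ∈ v i := by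
      intro i
      by_cases hi : i ∈ F
      · obtain ⟨z, hz⟩ := ((hB i).1 _ (hv i hi)).2
        exact ⟨z, fun _ => hz⟩
      · exact ⟨x0 i, fun h => absurd h hi⟩
    choose y hy using h1
    exact ⟨y, fun i hi => hy i hi⟩
  · intro U hU
    obtain ⟨x, hx⟩ := hU.2
    obtain ⟨F, u, hu, hsub⟩ := isOpen_pi_iff.1 hU.1 x hx
    have h1 : ∀ i, ∃ V : Set (Y i), i ∈ F → V ∈ B i ∧ V ⊆ u i := by
      intro i
      by_cases hi : i ∈ F
      · obtain ⟨V, hV, hVu⟩ := (hB i).2 (u i) ⟨(hu i hi).1, x i, (hu i hi).2⟩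
        exact ⟨V, fun _ => ⟨hV, hVu⟩⟩
      · exact ⟨∅, fun h => absurd h hi⟩
    choose V hV using h1
    refine ⟨_, ⟨F, V, fun i hi => (hV i hi).1, rfl⟩, ?_⟩
    exact (Set.pi_mono fun i hi => (hV i hi).2).trans hsub

/-- the ranks of the boxes -/
noncomputable def rr (B : ∀ i, Set (Set (Y i))) (r : ∀ i, Set (Y i) → Ordinal.{0})
    (W : Set (∀ i, Y i)) : Ordinal.{0} :=
  sInf {a | ∃ (F : Finset I) (v : ∀ i, Set (Y i)), (∀ i ∈ F, v i ∈ B i ∧ r i (v i) ≤ a) ∧
    W = Set.pi (↑F : Set I) v}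

omit [∀ i, TopologicalSpace (Y i)] in
theorem rr_mem {B : ∀ i, Set (Set (Y i))} {r : ∀ i, Set (Y i) → Ordinal.{0}} {W : Set (∀ i, Y i)}
    (hW : W ∈ box B) : ∃ (F : Finset I) (v : ∀ i, Set (Y i)),
      (∀ i ∈ F, v i ∈ B i ∧ r i (v i) ≤ rr B r W) ∧ W = Set.pi (↑F : Set I) v := by
  obtain ⟨F, v, hv, he⟩ := hW
  have hne : {a | ∃ (F : Finset I) (v : ∀ i, Set (Y i)), (∀ i ∈ F, v i ∈ B i ∧ r i (v i) ≤ a) ∧
      W = Set.pi (↑F : Set I) v}.Nonempty :=
    ⟨F.sup fun i => r i (v i), F, v, fun i hi =>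
      ⟨hv i hi, Finset.le_sup (f := fun i => r i (v i)) hi⟩, he⟩
  exact csInf_mem hne

omit [∀ i, TopologicalSpace (Y i)] in
theorem rr_lt {B : ∀ i, Set (Set (Y i))} {r : ∀ i, Set (Y i) → Ordinal.{0}} {θ : Ordinal.{0}}
    (hθ : 0 < θ) (hr : ∀ i, ∀ V ∈ B i, r i V < θ) {W : Set (∀ i, Y i)} (hW : W ∈ box B) :
    rr B r W < θ := by
  obtain ⟨F, v, hv, he⟩ := hW
  have h1 : rr B r W ≤ F.sup fun i => r i (v i) :=
    csInf_le' ⟨F, v, fun i hi => ⟨hv i hi, Finset.le_sup (f := fun i => r i (v i)) hi⟩, he⟩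
  refine h1.trans_lt ((Finset.sup_lt_iff (by simpa using hθ)).2 fun i hi => hr i _ (hv i hi))

/-- the boxes of small rank above a box -/
theorem box_count {B : ∀ i, Set (Set (Y i))} (hB : ∀ i, PiBase (B i)) [Nonempty (∀ i, Y i)]
    {r : ∀ i, Set (Y i) → Ordinal.{0}} {θ : Ordinal.{0}} (hθ : 0 < θ)
    (hr : ∀ i, ∀ V ∈ B i, r i V < θ) {μ : Cardinal.{0}} (hμ : ℵ₀ ≤ μ)
    (hc : ∀ i, ∀ U ∈ B i, ∀ a < θ, #{V | V ∈ B i ∧ U ⊆ V ∧ r i V ≤ a} ≤ μ)
    {U : Set (∀ i, Y i)} (hU : U ∈ box B) :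
    #{V | V ∈ box B ∧ U ⊆ V ∧ rr B r V ≤ rr B r U} ≤ μ := by
  classical
  have ha := rr_lt hθ hr hU
  have hUne := ((box_piBase hB).1 U hU).2
  set a := rr B r U with haa
  obtain ⟨F, u, hu, he⟩ := rr_mem (r := r) hU
  let T : F → Type := fun i =>
    (insert Set.univ {V | V ∈ B i.1 ∧ u i.1 ⊆ V ∧ r i.1 V ≤ a} : Set (Set (Y i.1)))
  let Φ : (∀ i, T i) → Set (∀ i, Y i) := fun g => {y | ∀ i : F, y i.1 ∈ (g i).1}
  have hT : ∀ i, #(T i) ≤ μ := by
    intro i
    refine Cardinal.mk_insert_le.trans ?_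
    refine (add_le_add_left (hc i.1 (u i.1) (hu i.1 i.2).1 a ha) 1).trans ?_
    rw [Cardinal.add_one_eq hμ]
  have h1 : {V | V ∈ box B ∧ U ⊆ V ∧ rr B r V ≤ a} ⊆ range Φ := by
    rintro V ⟨hV, hUV, hVa⟩
    obtain ⟨G, v, hv, rfl⟩ := rr_mem (r := r) hV
    rw [he] at hUV hUne
    obtain ⟨hf1, hf2⟩ := pi_free hUne hUV
    have hw : ∀ i : F, (if i.1 ∈ G then v i.1 else Set.univ) ∈
        (insert Set.univ {V | V ∈ B i.1 ∧ u i.1 ⊆ V ∧ r i.1 V ≤ a} : Set (Set (Y i.1))) := by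
      intro i
      by_cases hi : i.1 ∈ G
      · rw [if_pos hi]
        exact Or.inr ⟨(hv i.1 hi).1, hf2 i.1 hi i.2, (hv i.1 hi).2.trans hVa⟩
      · rw [if_neg hi]
        exact Or.inl rfl
    refine ⟨fun i => ⟨_, hw i⟩, ?_⟩
    ext y
    constructor
    · intro hy i hi
      by_cases hiF : i ∈ F
      · have := hy ⟨i, hiF⟩
        dsimp only at this
        rwa [if_pos (show i ∈ G from hi)] at this
      · rw [hf1 i hi hiF]
        exact mem_univ _
    · intro hy i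
      change y i.1 ∈ (if i.1 ∈ G then v i.1 else Set.univ)
      by_cases hi : i.1 ∈ G
      · rw [if_pos hi]
        exact hy i.1 hi
      · rw [if_neg hi]
        exact mem_univ _
  exact (Cardinal.mk_le_mk_of_subset h1).trans (Cardinal.mk_range_le.trans (mk_pi_le hμ hT))

/-- the factors which are not indiscrete -/
def nonInd (Y : I → Type) [∀ i, TopologicalSpace (Y i)] : Set I :=
  {i | ∃ O : Set (Y i), NO O ∧ O ≠ Set.univ}

/-- ladders in products -/
theorem ladder_pi {μ : Cardinal.{0}} (hμ : ℵ₀ ≤ μ) (h : μ ≤ #(nonInd Y))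
    (U : Set (∀ i, Y i)) : Ladder U μ := by
  classical
  have h1 : lift.{0, 1} #(Iio μ.ord) ≤ lift.{1, 0} #(nonInd Y) := by
    rw [Cardinal.mk_Iio_ordinal, Cardinal.card_ord, Cardinal.lift_lift]
    simpa using h
  obtain ⟨e⟩ := Cardinal.lift_mk_le'.1 h1
  have hlim := Cardinal.isSuccLimit_ord hμ
  -- the supports
  let D : Set (∀ i, Y i) → Set (Finset I) := fun W =>
    {F | ∃ v : ∀ i, Set (Y i), (Set.pi (↑F : Set I) v).Nonempty ∧ Set.pi (↑F : Set I) v ⊆ W ∧
      ∀ i ∈ F, IsOpen (v i)}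
  -- the height of a support
  let ht : Finset I → Set Ordinal.{0} := fun F => {a | ∀ b : Iio μ.ord, (e b).1 ∈ F → b.1 < a}
  have hD : ∀ W, NO W → (D W).Nonempty := by
    intro W hW
    obtain ⟨x, hx⟩ := hW.2
    obtain ⟨F, u, hu, hsub⟩ := isOpen_pi_iff.1 hW.1 x hx
    exact ⟨F, u, ⟨x, fun i hi => (hu i hi).2⟩, hsub, fun i hi => (hu i hi).1⟩
  have hht : ∀ F : Finset I, ∃ a < μ.ord, a ∈ ht F := by
    intro F
    induction F using Finset.induction_on with
    | empty => exact ⟨0, hlim.bot_lt, fun b hb => absurd hb (by simp)⟩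
    | insert i F _ ih =>
      obtain ⟨a, ha, hF⟩ := ih
      by_cases hi : ∃ b : Iio μ.ord, (e b).1 = i
      · obtain ⟨b, rfl⟩ := hi
        refine ⟨max a (Order.succ b.1), max_lt ha (hlim.succ_lt b.2), fun b' hb' => ?_⟩
        rcases Finset.mem_insert.1 hb' with h2 | h2
        · have : b' = b := e.injective (Subtype.ext h2)
          rw [this]
          exact (Order.lt_succ b.1).trans_le (le_max_right _ _)
        · exact (hF b' h2).trans_le (le_max_left _ _)
      · refine ⟨a, ha, fun b' hb' => ?_⟩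
        rcases Finset.mem_insert.1 hb' with h2 | h2
        · exact absurd ⟨b', h2⟩ hi
        · exact hF b' h2
  refine ⟨fun W => sInf {a | ∃ F ∈ D W, a ∈ ht F}, ?_, ?_, ?_⟩
  · intro W hW _
    obtain ⟨F, hF⟩ := hD W hW
    obtain ⟨a, ha, haF⟩ := hht F
    have h2 : sInf {a | ∃ F ∈ D W, a ∈ ht F} ≤ a := csInf_le' ⟨F, hF, haF⟩
    exact h2.trans_lt ha
  · intro W W' hW hW' _ hsub
    obtain ⟨F, hF⟩ := hD W' hW'
    obtain ⟨a, ha, haF⟩ := hht F
    have h2 : sInf {a | ∃ F ∈ D W', a ∈ ht F} ∈ {a | ∃ F ∈ D W', a ∈ ht F} :=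
      csInf_mem ⟨a, F, hF, haF⟩
    obtain ⟨F', ⟨v, h3, h4, h5⟩, h6⟩ := h2
    exact csInf_le' ⟨F', ⟨v, h3, h4.trans hsub, h5⟩, h6⟩
  · intro W hW _ a ha
    obtain ⟨F, v, h3, h4, h5⟩ := hD W hW
    obtain ⟨a', ha', haF⟩ := hht F
    set b : Iio μ.ord := ⟨max a a', max_lt ha ha'⟩ with hb
    have hbF : (e b).1 ∉ F := fun hh => absurd (haF b hh) (not_lt.2 (le_max_right _ _))
    obtain ⟨O, hO, hOu⟩ := (e b).2
    obtain ⟨y, hy⟩ := h3
    obtain ⟨z, hz⟩ := hO.2
    refine ⟨Set.pi (↑F : Set I) v ∩ {y | y (e b).1 ∈ O}, ⟨?_, ?_⟩,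
      inter_subset_left.trans h4, ?_⟩
    · exact (isOpen_set_pi F.finite_toSet h5).inter (hO.1.preimage (continuous_apply _))
    · refine ⟨Function.update y (e b).1 z, fun i hi => ?_, ?_⟩
      · have : i ≠ (e b).1 := fun hh => hbF (hh ▸ hi)
        rw [Function.update_of_ne this]
        exact hy i hi
      · change Function.update y (e b).1 z (e b).1 ∈ O
        rw [Function.update_self]
        exact hz
    · have hne : {a | ∃ F' ∈ D (Set.pi (↑F : Set I) v ∩ {y | y (e b).1 ∈ O}),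
          a ∈ ht F'}.Nonempty := by
        by_contra hcon
        rw [not_nonempty_iff_eq_empty] at hcon
        have hNO : NO (Set.pi (↑F : Set I) v ∩ {y | y (e b).1 ∈ O}) := by
          refine ⟨(isOpen_set_pi F.finite_toSet h5).inter (hO.1.preimage (continuous_apply _)),
            Function.update y (e b).1 z, fun i hi => ?_, ?_⟩
          · have : i ≠ (e b).1 := fun hh => hbF (hh ▸ hi)
            rw [Function.update_of_ne this]
            exact hy i hi
          · change Function.update y (e b).1 z (e b).1 ∈ O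
            rw [Function.update_self]
            exact hz
        obtain ⟨F', hF'⟩ := hD _ hNO
        obtain ⟨a'', _, h7⟩ := hht F'
        have : a'' ∈ {a | ∃ F' ∈ D (Set.pi (↑F : Set I) v ∩ {y | y (e b).1 ∈ O}), a ∈ ht F'} :=
          ⟨F', hF', h7⟩
        rw [hcon] at this
        exact this
      refine le_csInf hne ?_
      rintro c ⟨F', ⟨v', h6, h7, h8⟩, h9⟩
      have hmem : (e b).1 ∈ F' := by
        by_contra hcon
        obtain ⟨y', hy'⟩ := h6
        obtain ⟨z', hz'⟩ := (ne_univ_iff_exists_notMem O).1 hOu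
        have h10 : Function.update y' (e b).1 z' ∈ Set.pi (↑F' : Set I) v' := by
          intro i hi
          have : i ≠ (e b).1 := fun hh => hcon (hh ▸ hi)
          rw [Function.update_of_ne this]
          exact hy' i hi
        have h11 := (h7 h10).2
        change Function.update y' (e b).1 z' (e b).1 ∈ O at h11
        rw [Function.update_self] at h11
        exact hz' h11
      exact ((le_max_left a a').trans_lt (h9 b hmem)).le

/-- the two main kinds of mild families -/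
theorem mild_of_small {Z : Type} {κ : Cardinal.{0}} (hκ : ℵ₀ ≤ κ) {m : ℕ} {B : Set (Set Z)}
    (h : (∀ U ∈ B, #{V | V ∈ B ∧ U ⊆ V} ≤ plus κ m) ∨ #B ≤ plus κ (m + 1)) : Mild κ m B := by
  classical
  have hlim := Cardinal.isSuccLimit_ord (plus_inf hκ (m + 1))
  rcases h with hc | hc
  · refine ⟨fun _ => 0, fun V _ => hlim.bot_lt, fun U hU a _ => ?_⟩
    have h1 : {V | V ∈ B ∧ U ⊆ V ∧ (0 : Ordinal.{0}) ≤ a} ⊆ {V | V ∈ B ∧ U ⊆ V} :=
      fun V hV => ⟨hV.1, hV.2.1⟩
    exact (Cardinal.mk_le_mk_of_subset h1).trans (hc U hU)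
  · obtain ⟨f, hf, hlt⟩ := exists_code B hc
    refine ⟨fun V => if hV : V ∈ B then f ⟨V, hV⟩ else 0, fun V hV => ?_,
      fun U hU a ha => ?_⟩
    · beta_reduce
      rw [dif_pos hV]
      exact hlt _
    · have h1 : (Order.succ a).card ≤ plus κ m := by
        have := hlim.succ_lt ha
        rw [Cardinal.lt_ord] at this
        exact Order.lt_succ_iff.1 this
      have h2 : lift.{1, 0} #{V | V ∈ B ∧ U ⊆ V ∧ (if hV : V ∈ B then f ⟨V, hV⟩ else 0) ≤ a} ≤
          lift.{0, 1} #(Iio (Order.succ a)) := by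
        refine Cardinal.lift_mk_le'.2 ⟨⟨fun V => ⟨f ⟨V.1, V.2.1⟩, ?_⟩, ?_⟩⟩
        · have := V.2.2.2
          rw [dif_pos V.2.1] at this
          exact Order.lt_succ_iff.2 this
        · intro V V' hVV
          have h3 := hf (congrArg Subtype.val hVV)
          exact Subtype.ext (show V.1 = V'.1 from congrArg (fun z : B => z.1) h3)
      rw [Cardinal.mk_Iio_ordinal, Cardinal.lift_lift] at h2
      have h4 : lift.{1, 0} #{V | V ∈ B ∧ U ⊆ V ∧ (if hV : V ∈ B then f ⟨V, hV⟩ else 0) ≤ a} ≤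
          lift.{1, 0} (Order.succ a).card := by simpa using h2
      exact (Cardinal.lift_le.1 h4).trans h1

theorem hasTactic_of_isEmpty {X : Type} [TopologicalSpace X] (h : IsEmpty X) (k : ℕ) :
    HasTactic X k :=
  ⟨fun _ => ∅, fun U hU => by
    obtain ⟨x, _⟩ := (hU 0).2
    exact h.elim x⟩

/-- products -/
theorem hasTactic_pi {κ : Cardinal.{0}} (hκ : ℵ₀ ≤ κ) (m : ℕ)
    (hfac : ∀ i, ∃ B : Set (Set (Y i)), PiBase B ∧ Mild κ m B)
    (hcell : ∀ U ∈ pg {W : Set (∀ i, Y i) | NO W}, ∃ A, Cellular U A ∧ κ ≤ #A)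
    (hm : m = 0 ∨ plus κ m ≤ #(nonInd Y)) (hs : HasStrategy (∀ i, Y i)) :
    HasTactic (∀ i, Y i) (m + 2) := by
  classical
  rcases isEmpty_or_nonempty (∀ i, Y i) with he | hne
  · exact hasTactic_of_isEmpty he _
  choose B hB hM using hfac
  choose r hr hc using hM
  have hlim := Cardinal.isSuccLimit_ord (plus_inf hκ (m + 1))
  have hbox := box_piBase hB
  have hpg : ∀ U ∈ pg (box B), U ∈ pg {W : Set (∀ i, Y i) | NO W} := fun U hU =>
    ⟨hbox.1 U hU.1, hU.2⟩
  refine hasTactic_of_hyp hbox (r := rr B r) (fun U hU => ⟨κ, m, hκ, le_rfl,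
    box_count hB hlim.bot_lt hr (plus_inf hκ m) hc hU.1,
    fun U' hU' _ _ => hcell U' (hpg U' hU'), fun i hi him => ?_⟩) hs
  rcases hm with rfl | hm
  · omega
  · refine ladder_pi (plus_inf hκ i) (le_trans ?_ hm) U
    have : ∀ a b : ℕ, a ≤ b → plus κ a ≤ plus κ b := by
      intro a b hab
      induction hab with
      | refl => exact le_rfl
      | step _ ih => exact ih.trans (Order.le_succ _)
    exact this i m him

end Pool.Agent.helper12.BM
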