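import Pool.Agent.helper12.BM.Code

/-!
# The Banach-Mazur game: the tactic
-/

set_option autoImplicit false

open Set

namespace Pool.Agent.helper12.BM

variable {X : Type} [TopologicalSpace X]

/-- the choice of basic sets -/
structure Sel (P : Set (Set X)) (S : Set X → Set (Set X)) where
  /-- the basic set chosen in an open set -/
  bt : Set X → Set X
  mem : ∀ U, NO U → Reg U → bt U ∈ P
  sub : ∀ U, NO U → bt U ⊆ U
  rank : ∀ U U', NO U → NO U' → Reg U → U' ⊆ U → bt U' ⊆ bt U → bt U ∈ S (bt U')

section

variable {P : Set (Set X)} {S : Set X → Set (Set X)} {m : ℕ} (C : Coder P S m) (L : Sel P S)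
  (s : List (Set X) → Set X)

/-- legal positions consisting of regular sets -/
def LegR : List (Set X) → Prop
  | [] => True
  | U :: l => LegR l ∧ NO U ∧ Reg U ∧ (l ≠ [] → U ⊆ mv C s (l.map L.bt))

open Classical in
/-- the answer in the irreducible case -/
noncomputable def irrMove (U : Set X) : Set X :=
  if h : ∃ W, W ⊆ U ∧ Irr W then h.choose else ∅

open Classical in
/-- the tactic -/
noncomputable def tac (w : List (Set X)) : Set X :=
  if ¬ Reg (hd w) then irrMove (hd w)
  else if h : ∃ l, LegR C L s l ∧ l.take (m + 2) = w then mv C s (h.choose.map L.bt)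
  else ∅

omit [TopologicalSpace X] in
theorem hd_take {l : List (Set X)} (k : ℕ) : hd (l.take (k + 1)) = hd l := by
  cases l <;> simp [hd]

theorem irrMove_spec {U : Set X} (h : ¬ Reg U) : irrMove U ⊆ U ∧ Irr (irrMove U) := by
  have h1 : ∃ W, W ⊆ U ∧ Irr W := by
    unfold Reg at h
    push Not at h
    exact h
  unfold irrMove
  rw [dif_pos h1]
  exact h1.choose_spec

variable {C L s}

theorem LegR.good (hs : Wins (fun l => l) s) {l : List (Set X)} (h : LegR C L s l) :
    Good C s (l.map L.bt) ∧ ∀ V ∈ l, hd l ⊆ V := by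
  induction l with
  | nil => exact ⟨trivial, fun V hV => absurd hV (by simp)⟩
  | cons U l ih =>
    obtain ⟨h1, h2⟩ := ih h.1
    have hsub : ∀ V ∈ l, U ⊆ V ∧ L.bt U ⊆ L.bt V := by
      intro V hV
      have hne : l ≠ [] := by rintro rfl; simp at hV
      have h3 := h.2.2.2 hne
      obtain ⟨V0, l0, rfl⟩ := List.exists_cons_of_ne_nil hne
      have h4 := h1.mv_sub hs (B := L.bt V0) (h := l0.map L.bt)
      have h5 := (Good.fk_spec (C := C) (s := s) (B := L.bt V0) (h := l0.map L.bt) h1).2
      have h6 : U ⊆ L.bt V0 := h3.trans (h4.trans h5)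
      constructor
      · exact h6.trans ((L.sub V0 h.1.2.1).trans (h2 V hV))
      · refine (L.sub U h.2.1).trans (h6.trans ?_)
        exact h1.sub (B := L.bt V0) (h := l0.map L.bt) (List.mem_map_of_mem (f := L.bt) hV)
    refine ⟨⟨h1, L.mem U h.2.1 h.2.2.1, ?_, ?_⟩, ?_⟩
    · intro V hV
      rw [← List.map_cons (f := L.bt)] at hV
      obtain ⟨V', hV', rfl⟩ := List.mem_map.1 hV
      have hmem : ∀ V' ∈ U :: l, NO V' ∧ Reg V' := by
        have : ∀ l' : List (Set X), LegR C L s l' → ∀ V' ∈ l', NO V' ∧ Reg V' := by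
          intro l'
          induction l' with
          | nil => intro _ V' hV'; simp at hV'
          | cons A l' ih' =>
            intro hl' V' hV'
            rcases List.mem_cons.1 hV' with rfl | hV'
            · exact ⟨hl'.2.1, hl'.2.2.1⟩
            · exact ih' hl'.1 V' hV'
        exact this _ h
      have h7 := hmem V' hV'
      rcases List.mem_cons.1 hV' with rfl | hV''
      · exact L.rank _ _ h7.1 h7.1 h7.2 subset_rfl subset_rfl
      · exact L.rank _ _ h7.1 h.2.1 h7.2 (hsub V' hV'').1 (hsub V' hV'').2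
    · intro hne
      have : l ≠ [] := by rintro rfl; exact hne rfl
      exact (L.sub U h.2.1).trans (h.2.2.2 this)
    · intro V hV
      rw [hd_cons]
      rcases List.mem_cons.1 hV with rfl | hV
      · exact subset_rfl
      · exact (hsub V hV).1

theorem LegR.uniq (hs : Wins (fun l => l) s) {U : Set X} {l l' : List (Set X)}
    (h : LegR C L s (U :: l)) (h' : LegR C L s (U :: l'))
    (ht : l.take (m + 1) = l'.take (m + 1)) : l.map L.bt = l'.map L.bt := by
  have hlen := congrArg List.length ht
  rw [List.length_take, List.length_take] at hlen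
  by_cases hm : m < l.length
  · have hm' : m < l'.length := by omega
    have g := (h.1.good hs).1
    have g' := (h'.1.good hs).1
    have ht' : (l.map L.bt).take (m + 1) = (l'.map L.bt).take (m + 1) := by
      rw [← List.map_take, ← List.map_take, ht]
    have hml : m < (l.map L.bt).length := by simpa using hm
    have hml' : m < (l'.map L.bt).length := by simpa using hm'
    refine g.eq_of_code g' hml hml' ht' ?_
    have hget : ∀ i, i ≤ m → hd ((l.map L.bt).drop i) = hd ((l'.map L.bt).drop i) := by
      intro i him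
      rw [hd_drop (by omega), hd_drop (by omega)]
      have e1 : ((l.map L.bt).take (m + 1))[i]? = (l.map L.bt)[i]? := by
        rw [List.getElem?_take]; simp; omega
      have e2 : ((l'.map L.bt).take (m + 1))[i]? = (l'.map L.bt)[i]? := by
        rw [List.getElem?_take]; simp; omega
      rw [ht', e2, List.getElem?_eq_getElem (by omega), List.getElem?_eq_getElem (by omega)] at e1
      exact (Option.some.inj e1).symm
    obtain ⟨B, k, hBk⟩ : ∃ B k, l.map L.bt = B :: k :=
      List.exists_cons_of_ne_nil (by rintro h0; rw [h0] at hml; simp at hml)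
    obtain ⟨B', k', hBk'⟩ : ∃ B k, l'.map L.bt = B :: k :=
      List.exists_cons_of_ne_nil (by rintro h0; rw [h0] at hml'; simp at hml')
    have hne : l ≠ [] := by rintro rfl; simp at hm
    have hne' : l' ≠ [] := by rintro rfl; simp at hm'
    have u1 := h.2.2.2 hne
    have u2 := h'.2.2.2 hne'
    rw [hBk] at g hml u1 ⊢
    rw [hBk'] at g' hml' u2 ⊢
    rw [hBk, hBk'] at hget
    have hBB : B = B' := hget 0 (Nat.zero_le _)
    subst hBB
    have hb := hget m le_rfl
    have u3 : U ⊆ fk C (B :: k) := u1.trans (g.mv_sub hs)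
    have u4 : U ⊆ fk C (B :: k') := u2.trans (g'.mv_sub hs)
    unfold fk at u3 u4
    rw [if_pos hml] at u3
    rw [if_pos hml', ← hb, hd_cons] at u4
    rw [hd_cons] at u3
    by_contra hcon
    have hbm := hd_drop_mem hml
    have c1 := g.cd_lt le_rfl hml
    have c2 := g'.cd_lt le_rfl hml'
    rw [← hb] at c2
    have hdis := C.cell_disj _ (g.mem hbm) B g.2.1 (g.2.2.1 _ hbm) _ c1 _ c2 hcon
    obtain ⟨x, hx⟩ := h.2.1.2
    exact disjoint_left.1 hdis (u3 hx) (u4 hx)
  · have h1 : l.take (m + 1) = l := List.take_of_length_le (by omega)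
    have h2 : l'.take (m + 1) = l' := List.take_of_length_le (by omega)
    rw [h1, h2] at ht
    rw [ht]

theorem LegR.tac_eq (hs : Wins (fun l => l) s) {U : Set X} {l : List (Set X)}
    (h : LegR C L s (U :: l)) : tac C L s ((U :: l).take (m + 2)) = mv C s ((U :: l).map L.bt) := by
  have h1 : ∃ l', LegR C L s l' ∧ l'.take (m + 2) = (U :: l).take (m + 2) := ⟨_, h, rfl⟩
  unfold tac
  rw [hd_take, hd_cons, if_neg (not_not.2 h.2.2.1), dif_pos h1]
  obtain ⟨h2, h3⟩ := h1.choose_spec
  generalize h1.choose = l' at h2 h3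
  cases l' with
  | nil => simp at h3
  | cons U' l' =>
    rw [List.take_succ_cons, List.take_succ_cons, List.cons.injEq] at h3
    obtain ⟨rfl, h3⟩ := h3
    have := h2.uniq hs h h3
    simp only [List.map_cons, this]

/-- coding data give a tactic -/
theorem hasTactic_of_coder (hs : Wins (fun l => l) s) (C : Coder P S m) (L : Sel P S) :
    HasTactic X (m + 2) := by
  refine ⟨tac C L s, fun U hU => ?_⟩
  dsimp only
  have hirr : ∀ j, ¬ Reg (U j) → tac C L s ((hist U j).take (m + 2)) = irrMove (U j) := by
    intro j hj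
    have e : hd ((hist U j).take (m + 2)) = U j := by
      rw [hd_take]
      cases j <;> rfl
    unfold tac
    rw [e, if_pos hj]
  have hleg : ∀ j, (∀ i < j, U (i + 1) ⊆ tac C L s ((hist U i).take (m + 2))) → Reg (U j) →
      LegR C L s (hist U j) := by
    intro j
    induction j with
    | zero => intro _ hr; exact ⟨trivial, hU 0, hr, fun h => absurd rfl h⟩
    | succ j ih =>
      intro hp hr
      have h1 := hp j (Nat.lt_succ_self j)
      have hrj : Reg (U j) := by
        by_contra hcon
        rw [hirr j hcon] at h1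
        exact hr (U (j + 1)) subset_rfl ((irrMove_spec hcon).2.mono (hU _) h1)
      have h2 := ih (fun i hi => hp i (hi.trans (Nat.lt_succ_self j))) hrj
      refine ⟨h2, hU _, hr, fun _ => ?_⟩
      obtain ⟨A, l, hA⟩ := List.exists_cons_of_ne_nil (hist_ne_nil U j)
      rw [hA] at h1 h2 ⊢
      rw [h2.tac_eq hs] at h1
      exact h1
  have hgoodj : ∀ j, LegR C L s (hist U j) →
      tac C L s ((hist U j).take (m + 2)) = mv C s ((hist U j).map L.bt) ∧
      ∃ k, (hist U j).map L.bt = L.bt (U j) :: k ∧ Good C s (L.bt (U j) :: k) := by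
    intro j hj
    obtain ⟨l, hl⟩ : ∃ l, hist U j = U j :: l := by
      cases j with
      | zero => exact ⟨[], rfl⟩
      | succ j => exact ⟨hist U j, rfl⟩
    have h1 := (hj.good hs).1
    rw [hl] at hj h1 ⊢
    exact ⟨hj.tac_eq hs, l.map L.bt, by simp, by simpa using h1⟩
  have hlegal : ∀ j, (∀ i < j, U (i + 1) ⊆ tac C L s ((hist U i).take (m + 2))) →
      NO (tac C L s ((hist U j).take (m + 2))) ∧
        tac C L s ((hist U j).take (m + 2)) ⊆ U j := by
    intro j hp
    by_cases hr : Reg (U j)
    · obtain ⟨h1, k, h2, h3⟩ := hgoodj j (hleg j hp hr)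
      rw [h1, h2]
      refine ⟨(h3.mv_shr hs).1, ?_⟩
      exact (h3.mv_sub hs).trans (h3.fk_spec.2.trans (L.sub _ (hU j)))
    · rw [hirr j hr]
      have := irrMove_spec hr
      exact ⟨this.2.1, this.1⟩
  refine ⟨hlegal, fun hp => ?_⟩
  by_cases hall : ∀ j, Reg (U j)
  · have h1 := fun j => hgoodj j (hleg j (fun i _ => hp i) (hall j))
    let A : ℕ → Set X := fun j => fk C ((hist U j).map L.bt)
    have hA : ∀ j, hist A j = sg C ((hist U j).map L.bt) := by
      intro j
      induction j with
      | zero => rfl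
      | succ j ih =>
        simp only [hist]
        rw [ih]
        rfl
    have h2 : ∀ j, NO (A j) ∧ A j ⊆ L.bt (U j) := by
      intro j
      obtain ⟨-, k, h3, h4⟩ := h1 j
      simp only [A]
      rw [h3]
      exact h4.fk_spec
    obtain ⟨x, hx⟩ := (hs A fun j => (h2 j).1).2 (fun j => by
      dsimp only
      rw [hA]
      obtain ⟨h3, k, h4, h5⟩ := h1 j
      have h6 := (h5.mv_shr hs).2.1
      rw [← h4, ← h3] at h6
      exact (h2 (j + 1)).2.trans ((L.sub _ (hU _)).trans ((hp j).trans h6)))
    rw [mem_iInter] at hx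
    exact ⟨x, mem_iInter.2 fun j => L.sub _ (hU j) ((h2 j).2 (hx j))⟩
  · push Not at hall
    obtain ⟨i0, hi0⟩ := hall
    have hdec : ∀ j, U (j + 1) ⊆ U j := fun j => (hp j).trans (hlegal j fun i _ => hp i).2
    have hdec' : ∀ i j, i ≤ j → U j ⊆ U i := by
      intro i j hij
      induction hij with
      | refl => exact subset_rfl
      | step _ ih => exact (hdec _).trans ih
    have h1 := irrMove_spec hi0
    have h2 : U (i0 + 1) ⊆ irrMove (U i0) := by
      have := hp i0
      rwa [hirr i0 hi0] at this
    obtain ⟨x, hx⟩ := h1.2.inter_nonempty hs (U := fun k => U (i0 + 1 + k)) (fun k => hU _)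
      (fun k => (hdec' _ _ (Nat.le_add_right _ _)).trans h2)
    rw [mem_iInter] at hx
    refine ⟨x, mem_iInter.2 fun j => ?_⟩
    by_cases hj : j ≤ i0 + 1
    · exact hdec' j (i0 + 1) hj (hx 0)
    · have := hx (j - (i0 + 1))
      have e : i0 + 1 + (j - (i0 + 1)) = j := by omega
      rwa [e] at this

end

end Pool.Agent.helper12.BM
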